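import Pool.Agent.Helper75.MEI2.CornC

/-!
# Project MEI, all bodies: apexes on the boundary or outside of the cone
-/

namespace Helper75.MEI2

open Set MeasureTheory Filter Topology Matrix
open Helper29.MEI (tent TD TD_meas TD_compact tent_cont tent_nonneg tent_scale)

theorem fmu_int {M : Matrix (Fin 3) (Fin 3) ℝ} {f : (Fin 3 → ℝ) → ℝ} (hf : Continuous f) :
    IntegrableOn (fun t => f (mu M (vt t)) / Qf (vt t) ^ 2) (TC M) := by
  have h : IntegrableOn (fun t => f (mu M (vt t)) / Qf (vt t) ^ 2) TD := by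
    apply Continuous.continuousOn _ |>.integrableOn_compact TD_compact
    apply (hf.comp ((mu_cont M).comp vt_cont)).div₀ ((Qf_cont.comp vt_cont).pow 2)
    intro t
    exact (pow_pos (Qf_vt_pos t) 2).ne'
  exact h.mono_set (TC_sub M)

/-- **tent with an apex on the boundary or outside of the cone**: `ζ ≥ 0` the positive parts of the
coordinates of the apex, `f` any function above all tents with apex `ζ + ε` -/
theorem tentC_lim {M : Matrix (Fin 3) (Fin 3) ℝ} (hM : ∀ i j, 0 ≤ M i j) (hd : 0 < M.det)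
    {ζ : Fin 3 → ℝ} (hζ : ∀ k, 0 ≤ ζ k) {Z : ℝ} (hZ : Z = ζ 0 + ζ 1 + ζ 2) (hZ0 : 0 < Z)
    {f : (Fin 3 → ℝ) → ℝ} (hf : Continuous f)
    (hfe : ∀ ε : ℝ, 0 < ε → ∀ v : Fin 3 → ℝ, (∀ k, 0 ≤ v k) →
      min (v 0 / (ζ 0 + ε)) (min (v 1 / (ζ 1 + ε)) (v 2 / (ζ 2 + ε))) ≤ f v) :
    M.det / (54 * Z * cc M (ζ 0 / Z) (ζ 1 / Z) (ζ 2 / Z) ^ 2) ≤
      ∫ t in TC M, f (mu M (vt t)) / Qf (vt t) ^ 2 := by
  by_cases hcc : cc M (ζ 0 / Z) (ζ 1 / Z) (ζ 2 / Z) = 0
  · rw [hcc]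
    simp only [ne_eq, OfNat.ofNat_ne_zero, not_false_eq_true, zero_pow, mul_zero, div_zero]
    apply setIntegral_nonneg (TC_meas M)
    intro t ht
    apply div_nonneg _ (sq_nonneg _)
    refine le_trans ?_ (hfe 1 one_pos _ ht.2)
    exact le_min (div_nonneg (ht.2 0) (by linarith [hζ 0]))
      (le_min (div_nonneg (ht.2 1) (by linarith [hζ 1])) (div_nonneg (ht.2 2) (by linarith [hζ 2])))
  have key : ∀ ε : ℝ, 0 < ε →
      M.det / (54 * (Z + 3 * ε) * cc M ((ζ 0 + ε) / (Z + 3 * ε)) ((ζ 1 + ε) / (Z + 3 * ε))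
        ((ζ 2 + ε) / (Z + 3 * ε)) ^ 2) ≤
      ∫ t in TC M, f (mu M (vt t)) / Qf (vt t) ^ 2 := by
    intro ε hε
    have h := tentC hM hd (ζ := fun k => ζ k + ε) (fun k => by linarith [hζ k]) (Z := Z + 3 * ε)
      (by rw [hZ]; ring)
    refine h.trans ?_
    apply setIntegral_mono_on _ (fmu_int hf) (TC_meas M)
    · intro t ht
      exact div_le_div_of_nonneg_right (hfe ε hε _ ht.2) (sq_nonneg _)
    · apply fmu_int (f := fun v => min (v 0 / (ζ 0 + ε)) (min (v 1 / (ζ 1 + ε))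
        (v 2 / (ζ 2 + ε))))
      fun_prop
  have hlim : Tendsto (fun ε : ℝ => M.det / (54 * (Z + 3 * ε) *
      cc M ((ζ 0 + ε) / (Z + 3 * ε)) ((ζ 1 + ε) / (Z + 3 * ε))
        ((ζ 2 + ε) / (Z + 3 * ε)) ^ 2)) (𝓝[>] 0)
      (𝓝 (M.det / (54 * Z * cc M (ζ 0 / Z) (ζ 1 / Z) (ζ 2 / Z) ^ 2))) := by
    apply tendsto_nhdsWithin_of_tendsto_nhds
    have hc : ContinuousAt (fun ε : ℝ => M.det / (54 * (Z + 3 * ε) *
      cc M ((ζ 0 + ε) / (Z + 3 * ε)) ((ζ 1 + ε) / (Z + 3 * ε))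
        ((ζ 2 + ε) / (Z + 3 * ε)) ^ 2)) 0 := by
      apply ContinuousAt.div₀ continuousAt_const
      · have hZc : ContinuousAt (fun ε : ℝ => Z + 3 * ε) 0 := by fun_prop
        have hne : Z + 3 * (0 : ℝ) ≠ 0 := by linarith
        have g : ∀ a : ℝ, ContinuousAt (fun ε : ℝ => (a + ε) / (Z + 3 * ε)) 0 := fun a =>
          (continuousAt_const.add continuousAt_id).div₀ hZc hne
        have hccc : ContinuousAt (fun ε : ℝ => cc M ((ζ 0 + ε) / (Z + 3 * ε))
            ((ζ 1 + ε) / (Z + 3 * ε)) ((ζ 2 + ε) / (Z + 3 * ε))) 0 := by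
          have g0 := g (ζ 0)
          have g1 := g (ζ 1)
          have g2 := g (ζ 2)
          unfold cc
          fun_prop
        exact (continuousAt_const.mul hZc).mul (hccc.pow 2)
      · have : Z + 3 * (0 : ℝ) = Z := by ring
        simp only [this, add_zero]
        exact mul_ne_zero (mul_ne_zero (by norm_num) hZ0.ne') (pow_ne_zero 2 hcc)
    have := hc.tendsto
    simpa only [mul_zero, add_zero] using this
  refine le_of_tendsto hlim ?_
  filter_upwards [self_mem_nhdsWithin] with ε hε using key ε hε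

end Helper75.MEI2
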