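import Pool.Agent.Helper78.MEI.WC6
import Pool.Agent.Helper60.MEI.Cells

/-!
# Project MEI (M2), w-term: the corner squares

Near a vertex of the simplex the directions of the range satisfy
`(1 - m) w ≤ m own + Σ t_k S_k =: E`, so the loss is at most `y min(1 + S_0, E / (1 - m))`
(`tip_loss`, no hypothesis on `G`, all `S = 0` allowed) and `∫ 1 / (1 - m)` over a corner square
is small: the cost of the corner squares is linear in `S` (`tip_int`).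
-/

set_option autoImplicit false

namespace Helper75.MEI2

open Set Metric MeasureTheory Helper80.CW Helper82.CW Helper14.CW Helper93.MEI Helper82.M2
open Helper14.MEI2 Pool.Agent.Helper52.MEI Pool.Agent.Helper73.MEI Pool.Agent.Helper31.SR
open Helper78.MEI Helper60.MEI
open Helper33.MEI (Wi Dl tx M3 mt mt_pos M3_pos Dl_meas)
open scoped RealInnerProductSpace ENNReal

/-- the loss is at most `y w` for every direction with `w ≤ W` -/
theorem loss_w {a : Fin 4 → E3} (h : Gram4 (al a)) {A : ℝ} (hA : 0 ≤ A)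
    {q : E3} {t : ℝ × ℝ} (ht : t ∈ Dl)
    (hq : Pl a q) {V : Fin 3 → ℝ} (hV0 : ∀ k, 0 ≤ V k)
    (h1 : Qv a 1 q ≤ V 0) (h2 : Qv a 2 q ≤ V 1) (h3 : Qv a 3 q ≤ V 2)
    {G D W y : ℝ}
    (hG : G + (1 - D) * ‖a 0 - q‖ ^ 2 ≤ Yt a t q)
    (hwW : ‖a 0 - q‖ ^ 2 ≤ W) (hW0 : 0 < W) (hW2 : W < 2)
    (hy : A * (1 - (1 - D) / √(mt t)) + 0.127 / (1 - W / 2) +
      A * ((T3 t 0 * V 0 + T3 t 1 * V 1 + T3 t 2 * V 2) / √(mt t)) / (2 * (1 - W / 2)) ≤ y)
    (hy0 : 0 ≤ y) :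
    A * (G / √(mt t)) - y * ‖a 0 - q‖ ^ 2 ≤
      ff A (Yt a t q / √(mt t) - ‖a 0 - q‖ ^ 2) (‖a 0 - q‖ ^ 2) := by
  have hm : 0 < √(mt t) := Real.sqrt_pos.2 mt_pos
  obtain ⟨t1, t2, t3⟩ := ht
  have ht3 : (0 : ℝ) < 1 - t.1 - t.2 := by linarith
  have hm1 : √(mt t) ≤ 1 := by
    apply Real.sqrt_le_iff.2
    refine ⟨zero_le_one, ?_⟩
    have q1 := mul_pos t1 t2
    have q2 := mul_pos t1 ht3
    have q3 := mul_pos t2 ht3
    unfold Helper33.MEI.mt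
    linarith
  have x1 : G / √(mt t) - (1 - (1 - D) / √(mt t)) * ‖a 0 - q‖ ^ 2 ≤
      Yt a t q / √(mt t) - ‖a 0 - q‖ ^ 2 := by
    have e : G / √(mt t) - (1 - (1 - D) / √(mt t)) * ‖a 0 - q‖ ^ 2 =
        (G + (1 - D) * ‖a 0 - q‖ ^ 2) / √(mt t) - ‖a 0 - q‖ ^ 2 := by
      rw [add_div]
      ring
    rw [e]
    have := div_le_div_of_nonneg_right hG hm.le
    linarith
  have hT3 : ∀ k, 0 ≤ T3 t k := fun k => by
    fin_cases k
    · exact t1.le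
    · exact t2.le
    · exact ht3.le
  have p0 := mul_nonneg (hT3 0) (hV0 0)
  have p1 := mul_nonneg (hT3 1) (hV0 1)
  have p2 := mul_nonneg (hT3 2) (hV0 2)
  have g1 := gv_le h (k := 1) (by decide) hq h1
  have g2 := gv_le h (k := 2) (by decide) hq h2
  have g3 := gv_le h (k := 3) (by decide) hq h3
  have k1 := mul_le_mul_of_nonneg_left g1 (hT3 0)
  have k2 := mul_le_mul_of_nonneg_left g2 (hT3 1)
  have k3 := mul_le_mul_of_nonneg_left g3 (hT3 2)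
  have r1 := mul_le_mul_of_nonneg_left (le_pp (‖a 0 - q‖ ^ 2 - V 0)) (hT3 0)
  have r2 := mul_le_mul_of_nonneg_left (le_pp (‖a 0 - q‖ ^ 2 - V 1)) (hT3 1)
  have r3 := mul_le_mul_of_nonneg_left (le_pp (‖a 0 - q‖ ^ 2 - V 2)) (hT3 2)
  obtain ⟨w, hwd⟩ : ∃ w, w = ‖a 0 - q‖ ^ 2 := ⟨_, rfl⟩
  have hw0 : 0 ≤ w := by
    rw [hwd]
    exact sq_nonneg _
  have hT : T3 t 0 + T3 t 1 + T3 t 2 = 1 := by
    show t.1 + t.2 + (1 - t.1 - t.2) = 1
    ring
  unfold gv at k1 k2 k3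
  rw [← hwd] at hwW x1 k1 k2 k3 r1 r2 r3 ⊢
  obtain ⟨x, hx⟩ : ∃ x, x = w / W := ⟨_, rfl⟩
  have hxw : w = x * W := by
    rw [hx]
    field_simp
  have hx0 : 0 ≤ x := by
    rw [hx]
    positivity
  have hx1 : x ≤ 1 := by
    rw [hx, div_le_one hW0]
    exact hwW
  have hY : w - (T3 t 0 * V 0 + T3 t 1 * V 1 + T3 t 2 * V 2) ≤ Yt a t q := by
    unfold Yt
    have e : (T3 t 0 + T3 t 1 + T3 t 2) * w = w := by rw [hT, one_mul]
    nlinarith
  have hst : -((T3 t 0 * V 0 + T3 t 1 * V 1 + T3 t 2 * V 2) / √(mt t) * 1) ≤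
      Yt a t q / √(mt t) - w := by
    have e : Yt a t q / √(mt t) - w = (Yt a t q - √(mt t) * w) / √(mt t) := by
      field_simp
    rw [e, mul_one, ← neg_div]
    apply div_le_div_of_nonneg_right _ hm.le
    have := mul_le_mul_of_nonneg_right hm1 hw0
    linarith
  have d : 0 < 1 - W / 2 := by linarith
  have he : 0 ≤ A * ((T3 t 0 * V 0 + T3 t 1 * V 1 + T3 t 2 * V 2) / √(mt t)) /
      (2 * (1 - W / 2)) := by
    have hCn : 0 ≤ T3 t 0 * V 0 + T3 t 1 * V 1 + T3 t 2 * V 2 := by linarith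
    positivity
  have k5 := mul_le_mul_of_nonneg_right hy hx0
  have k6 := mul_le_mul_of_nonneg_left hx1 hy0
  have k7 := mul_nonneg he hx0
  have e8 : y * w = y * x * W := by
    rw [hxw]
    ring
  rw [e8]
  refine ff_noG (θ := 1) hA hx0 hx1 hxw hW0.le hW2 x1 hst ?_ ?_
  · rw [mul_one]
    nlinarith
  · nlinarith

/-- the range without the strips: `(1 - m) w ≤ m s + Σ t_k V_k` -/
theorem w_range {a : Fin 4 → E3} (h : Gram4 (al a)) {q : E3} {t : ℝ × ℝ} (ht : t ∈ Dl)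
    (hq : Pl a q) {V : Fin 3 → ℝ}
    (h1 : Qv a 1 q ≤ V 0) (h2 : Qv a 2 q ≤ V 1) (h3 : Qv a 3 q ≤ V 2) {s : ℝ}
    (hX : Yt a t q / √(mt t) - ‖a 0 - q‖ ^ 2 ≤ s) :
    (1 - √(mt t)) * ‖a 0 - q‖ ^ 2 ≤
      √(mt t) * s + (T3 t 0 * V 0 + T3 t 1 * V 1 + T3 t 2 * V 2) := by
  have hm : 0 < √(mt t) := Real.sqrt_pos.2 mt_pos
  obtain ⟨t1, t2, t3⟩ := ht
  have ht3 : (0 : ℝ) < 1 - t.1 - t.2 := by linarith
  have hT3 : ∀ k, 0 ≤ T3 t k := fun k => by
    fin_cases k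
    · exact t1.le
    · exact t2.le
    · exact ht3.le
  have g1 := gv_le h (k := 1) (by decide) hq h1
  have g2 := gv_le h (k := 2) (by decide) hq h2
  have g3 := gv_le h (k := 3) (by decide) hq h3
  have k1 := mul_le_mul_of_nonneg_left g1 (hT3 0)
  have k2 := mul_le_mul_of_nonneg_left g2 (hT3 1)
  have k3 := mul_le_mul_of_nonneg_left g3 (hT3 2)
  have r1 := mul_le_mul_of_nonneg_left (le_pp (‖a 0 - q‖ ^ 2 - V 0)) (hT3 0)
  have r2 := mul_le_mul_of_nonneg_left (le_pp (‖a 0 - q‖ ^ 2 - V 1)) (hT3 1)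
  have r3 := mul_le_mul_of_nonneg_left (le_pp (‖a 0 - q‖ ^ 2 - V 2)) (hT3 2)
  have hT : T3 t 0 + T3 t 1 + T3 t 2 = 1 := by
    show t.1 + t.2 + (1 - t.1 - t.2) = 1
    ring
  unfold gv at k1 k2 k3
  have hY : ‖a 0 - q‖ ^ 2 - (T3 t 0 * V 0 + T3 t 1 * V 1 + T3 t 2 * V 2) ≤ Yt a t q := by
    unfold Yt
    have e : (T3 t 0 + T3 t 1 + T3 t 2) * ‖a 0 - q‖ ^ 2 = ‖a 0 - q‖ ^ 2 := by rw [hT, one_mul]
    nlinarith
  have k4 : Yt a t q ≤ (‖a 0 - q‖ ^ 2 + s) * √(mt t) := by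
    rw [← div_le_iff₀ hm]
    linarith
  linarith

/-- **the corner squares, one direction**: the loss is at most `y` times any upper bound `W'` of
`min(1 + S_0, E / (1 - m))` -/
theorem tip_loss {a : Fin 4 → E3} {σ : Measure (E3 × E3)} {K : Set E3} {S : Fin 4 → ℝ}
    {c : Fin 4 → E3} (h : CN K σ a c) (v : Viol K a S)
    (τ : Equiv.Perm (Fin 4)) {A : ℝ} (hA : 0 ≤ A) (hS0 : S (τ 0) < 1)
    {t : ℝ × ℝ} (ht : t ∈ Dl) {q : E3} (hq : q ∈ K) {G D s y W' : ℝ}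
    (hX : Yt (fun i => a (τ i)) t q / √(mt t) - ‖a (τ 0) - q‖ ^ 2 ≤ s)
    (hG : G + (1 - D) * ‖a (τ 0) - q‖ ^ 2 ≤ Yt (fun i => a (τ i)) t q)
    (hy0 : 0 ≤ y)
    (hy : A * (1 - (1 - D) / √(mt t)) + 0.254 / (1 - S (τ 0)) +
      A * ((T3 t 0 * S (τ 1) + T3 t 1 * S (τ 2) + T3 t 2 * S (τ 3)) / √(mt t)) /
        (1 - S (τ 0)) ≤ y)
    (hW : min (1 + S (τ 0)) ((√(mt t) * s +
      (T3 t 0 * S (τ 1) + T3 t 1 * S (τ 2) + T3 t 2 * S (τ 3))) / (1 - √(mt t))) ≤ W') :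
    A * (G / √(mt t)) - y * W' ≤
      ff A (Yt (fun i => a (τ i)) t q / √(mt t) - ‖a (τ 0) - q‖ ^ 2)
        (‖a (τ 0) - q‖ ^ 2) := by
  have h' := h.perm τ
  have v' := viol_perm v τ
  have hgr := gram_of_dist h'.ha
  have hQ := v'.le
  have hpl := h'.hp q hq
  have hs0 : 0 ≤ S (τ 0) := v.nn _
  have w1 : ‖a (τ 0) - q‖ ^ 2 ≤ 1 + S (τ 0) := by
    have h1 := hQ 0 q hq
    unfold Qv at h1
    rw [norm_sub_rev]
    show ‖q - a (τ 0)‖ ^ 2 ≤ 1 + S (τ 0)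
    have h2 : ‖q - a (τ 0)‖ ^ 2 - 1 ≤ S (τ 0) := h1
    linarith
  have hmt1 : mt t < 1 := by
    obtain ⟨t1, t2, t3⟩ := ht
    have ht3 : (0 : ℝ) < 1 - t.1 - t.2 := by linarith
    have q1 := mul_pos t1 t2
    have q2 := mul_pos t1 ht3
    have q3 := mul_pos t2 ht3
    unfold Helper33.MEI.mt
    linarith
  have hm1 : 0 < 1 - √(mt t) := by
    have : √(mt t) < 1 := by
      rw [Real.sqrt_lt' one_pos]
      linarith
    linarith
  have w2 : ‖a (τ 0) - q‖ ^ 2 ≤ (√(mt t) * s +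
      (T3 t 0 * S (τ 1) + T3 t 1 * S (τ 2) + T3 t 2 * S (τ 3))) / (1 - √(mt t)) := by
    rw [le_div_iff₀ hm1, mul_comm]
    exact w_range (a := fun i => a (τ i)) hgr ht hpl (V := fun k => S (τ k.succ))
      (hQ 1 q hq) (hQ 2 q hq) (hQ 3 q hq) hX
  have key := loss_w (a := fun i => a (τ i)) hgr hA ht hpl (V := fun k => S (τ k.succ))
    (fun k => v.nn _) (hQ 1 q hq) (hQ 2 q hq) (hQ 3 q hq) (G := G) (D := D) (W := 1 + S (τ 0))
    (y := y) hG w1 (by linarith) (by linarith) (by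
      have e : (1 : ℝ) - (1 + S (τ 0)) / 2 = (1 - S (τ 0)) / 2 := by ring
      have d : 0 < 1 - S (τ 0) := by linarith
      rw [e]
      have e1 : 0.127 / ((1 - S (τ 0)) / 2) = 0.254 / (1 - S (τ 0)) := by
        field_simp
        norm_num
      have e2 : 2 * ((1 - S (τ 0)) / 2) = 1 - S (τ 0) := by ring
      rw [e1, e2]
      exact hy) hy0
  have k := mul_le_mul_of_nonneg_left ((le_min w1 w2).trans hW) hy0
  have key' : A * (G / √(mt t)) - y * ‖a (τ 0) - q‖ ^ 2 ≤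
      ff A (Yt (fun i => a (τ i)) t q / √(mt t) - ‖a (τ 0) - q‖ ^ 2)
        (‖a (τ 0) - q‖ ^ 2) := key
  linarith

/-! ### the function of the corner square -/

/-- `min 2 (C / (x + y))` on the square `(0, h]²` -/
noncomputable def tip (C h : ℝ) (t : ℝ × ℝ) : ℝ :=
  (Ioc (0 : ℝ) h ×ˢ Ioc (0 : ℝ) h).indicator (fun t => min 2 (C / (t.1 + t.2))) t

theorem tip_meas (C h : ℝ) : Measurable (tip C h) := by
  unfold tip
  refine Measurable.indicator ?_ (measurableSet_Ioc.prod measurableSet_Ioc)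
  exact measurable_const.min (measurable_const.div (measurable_fst.add measurable_snd))

theorem tip_nonneg {C : ℝ} (hC : 0 ≤ C) (h : ℝ) (t : ℝ × ℝ) : 0 ≤ tip C h t := by
  unfold tip
  refine indicator_nonneg (fun t ht => ?_) t
  obtain ⟨h1, h2⟩ := ht
  have a1 := h1.1
  have a2 := h2.1
  exact le_min (by norm_num) (by positivity)

theorem tip_le {C : ℝ} (h : ℝ) (t : ℝ × ℝ) : tip C h t ≤ 2 := by
  unfold tip
  by_cases ht : t ∈ Ioc (0 : ℝ) h ×ˢ Ioc (0 : ℝ) h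
  · rw [indicator_of_mem ht]
    exact min_le_left _ _
  · rw [indicator_of_notMem ht]
    norm_num

theorem tip_eq {C h : ℝ} {t : ℝ × ℝ} (ht : t ∈ Dl) (h1 : t.1 ≤ h) (h2 : t.2 ≤ h) :
    tip C h t = min 2 (C / (t.1 + t.2)) :=
  indicator_of_mem (show t ∈ Ioc (0 : ℝ) h ×ˢ Ioc (0 : ℝ) h from ⟨⟨ht.1, h1⟩, ⟨ht.2.1, h2⟩⟩) _

/-- `1/(x + y) ≤ x^(-1/2) y^(-1/2) / 2` -/
theorem inv_add_le {x y : ℝ} (hx : 0 < x) (hy : 0 < y) :
    1 / (x + y) ≤ x ^ (-(1 / 2) : ℝ) * (y ^ (-(1 / 2) : ℝ) / 2) := by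
  have ex : x ^ (-(1 / 2) : ℝ) = (√x)⁻¹ := by
    rw [Real.rpow_neg hx.le, Real.sqrt_eq_rpow]
  have ey : y ^ (-(1 / 2) : ℝ) = (√y)⁻¹ := by
    rw [Real.rpow_neg hy.le, Real.sqrt_eq_rpow]
  rw [ex, ey]
  have sx := Real.sqrt_pos.2 hx
  have sy := Real.sqrt_pos.2 hy
  have e : (√x)⁻¹ * ((√y)⁻¹ / 2) = 1 / (2 * √x * √y) := by
    field_simp
  rw [e]
  refine one_div_le_one_div_of_le (by positivity) ?_
  have q := sq_nonneg (√x - √y)
  have qx := Real.sq_sqrt hx.le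
  have qy := Real.sq_sqrt hy.le
  nlinarith

theorem int_rp {h : ℝ} (hh : 0 ≤ h) :
    ∫ x in Ioc (0 : ℝ) h, x ^ (-(1 / 2) : ℝ) = 2 * √h := by
  rw [← intervalIntegral.integral_of_le hh, integral_rpow (Or.inl (by norm_num))]
  have e : (-(1 / 2) : ℝ) + 1 = 1 / 2 := by norm_num
  rw [e, Real.zero_rpow (by norm_num), Real.sqrt_eq_rpow]
  ring

theorem on_rp {h : ℝ} (hh : 0 ≤ h) :
    IntegrableOn (fun x : ℝ => x ^ (-(1 / 2) : ℝ)) (Ioc 0 h) := by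
  have := intervalIntegral.intervalIntegrable_rpow' (a := 0) (b := h)
    (show (-1 : ℝ) < -(1 / 2) by norm_num)
  exact (intervalIntegrable_iff_integrableOn_Ioc_of_le hh).1 this

/-- **the integral of the corner square** -/
theorem tip_int {C h M : ℝ} (hC : 0 ≤ C) (hh : 0 ≤ h) (hh2 : 2 * h < 1) (hM : 0 ≤ M)
    (hMh : 1 ≤ M ^ 2 * (1 - 2 * h) ^ 3) :
    ∫ t in Dl, tip C h t * M3 t ≤ 2 * h * C * M := by
  have hb : ∀ t ∈ Dl, |tip C h t| ≤ 2 := fun t _ => by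
    rw [abs_of_nonneg (tip_nonneg hC h t)]
    exact tip_le h t
  have i1 : IntegrableOn (fun t => tip C h t * M3 t) Dl :=
    on_Dl (tip_meas C h).aestronglyMeasurable hb
  have hmeas : MeasurableSet (Ioc (0 : ℝ) h ×ˢ Ioc (0 : ℝ) h) :=
    measurableSet_Ioc.prod measurableSet_Ioc
  obtain ⟨g, hg⟩ : ∃ g : ℝ × ℝ → ℝ, g = fun t : ℝ × ℝ =>
    t.1 ^ (-(1 / 2) : ℝ) * (t.2 ^ (-(1 / 2) : ℝ) / 2) := ⟨_, rfl⟩
  have ig : IntegrableOn g (Ioc (0 : ℝ) h ×ˢ Ioc (0 : ℝ) h) := by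
    rw [hg]
    unfold IntegrableOn
    rw [Measure.volume_eq_prod, ← Measure.prod_restrict]
    exact (on_rp hh).mul_prod ((on_rp hh).div_const 2)
  have eg : ∫ t in Ioc (0 : ℝ) h ×ˢ Ioc (0 : ℝ) h, g t = 2 * h := by
    rw [hg, Measure.volume_eq_prod, setIntegral_prod_mul (fun x : ℝ => x ^ (-(1 / 2) : ℝ))
      (fun x : ℝ => x ^ (-(1 / 2) : ℝ) / 2)]
    rw [integral_div, int_rp hh]
    have := Real.mul_self_sqrt hh
    nlinarith
  have i2 : IntegrableOn (fun t => (Ioc (0 : ℝ) h ×ˢ Ioc (0 : ℝ) h).indicator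
      (fun t => C * M * g t) t) Dl := by
    have k : Integrable ((Ioc (0 : ℝ) h ×ˢ Ioc (0 : ℝ) h).indicator
      (fun t => C * M * g t)) := (integrable_indicator_iff hmeas).2 (ig.const_mul _)
    exact k.integrableOn
  have hle : ∀ t ∈ Dl, tip C h t * M3 t ≤ (Ioc (0 : ℝ) h ×ˢ Ioc (0 : ℝ) h).indicator
      (fun t => C * M * g t) t := by
    intro t ht
    unfold tip
    by_cases hs : t ∈ Ioc (0 : ℝ) h ×ˢ Ioc (0 : ℝ) h
    · rw [indicator_of_mem hs, indicator_of_mem hs]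
      obtain ⟨⟨a1, a2⟩, ⟨b1, b2⟩⟩ := hs
      have m1 : M3 t ≤ M := M3_corner a1.le b1.le (h := 2 * h) (by linarith) hh2 hM hMh
      have m0 := M3_pos t
      have k1 : min 2 (C / (t.1 + t.2)) ≤ C * g t := by
        refine (min_le_right _ _).trans ?_
        rw [hg, div_eq_mul_one_div]
        exact mul_le_mul_of_nonneg_left (inv_add_le a1 b1) hC
      have k0 : 0 ≤ min 2 (C / (t.1 + t.2)) := le_min (by norm_num) (by positivity)
      calc min 2 (C / (t.1 + t.2)) * M3 t ≤ C * g t * M := by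
            exact mul_le_mul k1 m1 m0.le (k0.trans k1)
        _ = C * M * g t := by ring
    · rw [indicator_of_notMem hs, indicator_of_notMem hs, zero_mul]
  calc ∫ t in Dl, tip C h t * M3 t ≤ ∫ t in Dl, (Ioc (0 : ℝ) h ×ˢ Ioc (0 : ℝ) h).indicator
        (fun t => C * M * g t) t := setIntegral_mono_on i1 i2 Dl_meas hle
    _ ≤ ∫ t, (Ioc (0 : ℝ) h ×ˢ Ioc (0 : ℝ) h).indicator (fun t => C * M * g t) t := by
        refine setIntegral_le_integral ((integrable_indicator_iff hmeas).2 (ig.const_mul _)) ?_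
        refine Filter.Eventually.of_forall fun t => ?_
        show 0 ≤ (Ioc (0 : ℝ) h ×ˢ Ioc (0 : ℝ) h).indicator (fun t => C * M * g t) t
        refine indicator_nonneg (fun t hs => ?_) t
        obtain ⟨⟨a1, a2⟩, ⟨b1, b2⟩⟩ := hs
        rw [hg]
        positivity
    _ = C * M * ∫ t in Ioc (0 : ℝ) h ×ˢ Ioc (0 : ℝ) h, g t := by
        rw [integral_indicator hmeas, integral_const_mul]
    _ = 2 * h * C * M := by
        rw [eg]
        ring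

/-! ### the three corners -/

/-- the function of the three corner squares -/
noncomputable def omT (y C0 C1 C2 h : ℝ) (t : ℝ × ℝ) : ℝ :=
  y * (tip C0 h (c0 t) + tip C1 h (c1 t) + tip C2 h t)

theorem omT_meas (y C0 C1 C2 h : ℝ) : Measurable (omT y C0 C1 C2 h) := by
  unfold omT
  exact measurable_const.mul ((((tip_meas C0 h).comp c0_meas).add ((tip_meas C1 h).comp c1_meas)).add
    (tip_meas C2 h))

theorem omT_nonneg {y C0 C1 C2 : ℝ} (hy : 0 ≤ y) (h0 : 0 ≤ C0) (h1 : 0 ≤ C1) (h2 : 0 ≤ C2)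
    (h : ℝ) (t : ℝ × ℝ) : 0 ≤ omT y C0 C1 C2 h t :=
  mul_nonneg hy (add_nonneg (add_nonneg (tip_nonneg h0 h _) (tip_nonneg h1 h _))
    (tip_nonneg h2 h _))

theorem omT_le {y : ℝ} (hy : 0 ≤ y) (C0 C1 C2 h : ℝ) (t : ℝ × ℝ) :
    omT y C0 C1 C2 h t ≤ 6 * y := by
  have a0 := tip_le (C := C0) h (c0 t)
  have a1 := tip_le (C := C1) h (c1 t)
  have a2 := tip_le (C := C2) h t
  have := mul_le_mul_of_nonneg_left (show tip C0 h (c0 t) + tip C1 h (c1 t) + tip C2 h t ≤ 6 by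
    linarith) hy
  unfold omT
  linarith

/-- **the integral of the three corner squares** -/
theorem omT_int {y C0 C1 C2 h M : ℝ} (hy : 0 ≤ y) (h0 : 0 ≤ C0) (h1 : 0 ≤ C1) (h2 : 0 ≤ C2)
    (hh : 0 ≤ h) (hh2 : 2 * h < 1) (hM : 0 ≤ M) (hMh : 1 ≤ M ^ 2 * (1 - 2 * h) ^ 3) :
    ∫ t in Dl, omT y C0 C1 C2 h t * M3 t ≤ 2 * h * M * (y * (C0 + C1 + C2)) := by
  have onI : ∀ {C : ℝ} (_ : 0 ≤ C) {c : ℝ × ℝ → ℝ × ℝ} (_ : Measurable c),
      IntegrableOn (fun t => tip C h (c t) * M3 t) Dl := by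
    intro C hC c hc
    refine on_Dl (C := 2) ((tip_meas C h).comp hc).aestronglyMeasurable fun t _ => ?_
    rw [abs_of_nonneg (tip_nonneg hC h _)]
    exact tip_le h _
  have i0 := onI h0 c0_meas
  have i1 := onI h1 c1_meas
  have i2 := onI h2 measurable_id
  have e0 : ∫ t in Dl, tip C0 h (c0 t) * M3 t = ∫ t in Dl, tip C0 h t * M3 t := by
    have h := int_c0 fun t => tip C0 h t * M3 t
    simp only [M3_c0] at h
    exact h
  have e1 : ∫ t in Dl, tip C1 h (c1 t) * M3 t = ∫ t in Dl, tip C1 h t * M3 t := by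
    have h := int_c1 fun t => tip C1 h t * M3 t
    simp only [M3_c1] at h
    exact h
  have e : ∀ t, omT y C0 C1 C2 h t * M3 t =
      y * ((tip C0 h (c0 t) * M3 t + tip C1 h (c1 t) * M3 t) + tip C2 h (id t) * M3 t) := fun t => by
    unfold omT
    simp only [id]
    ring
  simp only [e]
  rw [integral_const_mul]
  have k1 : ∫ t in Dl, (tip C0 h (c0 t) * M3 t + tip C1 h (c1 t) * M3 t) + tip C2 h (id t) * M3 t =
      (∫ t in Dl, (tip C0 h (c0 t) * M3 t + tip C1 h (c1 t) * M3 t)) +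
        ∫ t in Dl, tip C2 h (id t) * M3 t := integral_add (i0.add i1) i2
  have k2 : ∫ t in Dl, (tip C0 h (c0 t) * M3 t + tip C1 h (c1 t) * M3 t) =
      (∫ t in Dl, tip C0 h (c0 t) * M3 t) + ∫ t in Dl, tip C1 h (c1 t) * M3 t :=
    integral_add i0 i1
  rw [k1, k2, e0, e1]
  have g0 := tip_int h0 hh hh2 hM hMh
  have g1 := tip_int h1 hh hh2 hM hMh
  have g2 := tip_int h2 hh hh2 hM hMh
  have g := mul_le_mul_of_nonneg_left (add_le_add (add_le_add g0 g1) g2) hy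
  refine g.trans (le_of_eq ?_)
  ring

/-- `1 - m` in a corner square -/
theorem one_sub_m {x y h m : ℝ} (hx : 0 < x) (hy : 0 < y) (hxh : x ≤ h) (hyh : y ≤ h)
    (hh : h ≤ 1 / 100) (hm0 : 0 ≤ m) (hm : m ^ 2 = 1 - x - y + x ^ 2 + y ^ 2 + x * y) :
    m < 1 ∧ 98 / 100 ≤ m ∧ (x + y) * (1 - 2 * h) / 2 ≤ 1 - m := by
  have hq : x ^ 2 + y ^ 2 + x * y ≤ (x + y) * (2 * h) := by nlinarith [mul_pos hx hy]
  have h1 : m < 1 := by nlinarith
  have h2 : 98 / 100 ≤ m := by nlinarith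
  refine ⟨h1, h2, ?_⟩
  have h3 : (x + y) * (1 - 2 * h) ≤ (1 - m) * (1 + m) := by nlinarith
  nlinarith

/-- **the corner squares**: the inequality of `WCost` with the function `omT`, for every `G` -/
theorem tip_wc {a : Fin 4 → E3} {σ : Measure (E3 × E3)} {K : Set E3} {S : Fin 4 → ℝ}
    {c : Fin 4 → E3} (h : CN K σ a c) (v : Viol K a S)
    (τ : Equiv.Perm (Fin 4)) {A : ℝ} (hA : 0 ≤ A) {X : ℝ}
    (hSX : S (τ 0) + (S (τ 1) + S (τ 2) + S (τ 3)) ≤ X) (hX1 : X ≤ 1 / 100)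
    {hh dT y : ℝ} (hh0 : 0 < hh) (hh1 : hh ≤ 1 / 100) (hd0 : 0 ≤ dT) (hd1 : dT ≤ 1)
    (hy : 0.257 + A * (dT + 1.031 * X) ≤ y)
    {C : Fin 3 → ℝ} (hC0 : ∀ k, 0 ≤ C k)
    (hC : ∀ k, 2 * (S (τ 0) + S (τ k.succ) + hh * (S (τ 1) + S (τ 2) + S (τ 3))) ≤
      C k * (1 - 2 * hh))
    {t : ℝ × ℝ} (ht : t ∈ Dl) {k : Fin 3} (htk : ∀ j, j ≠ k → T3 t j ≤ hh)
    {q : E3} (hq : q ∈ K) {G D : ℝ} (hD : D ≤ dT)
    (hX : Yt (fun i => a (τ i)) t q / √(mt t) - ‖a (τ 0) - q‖ ^ 2 ≤ own (S (τ 0)) t)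
    (hG : G + (1 - D) * ‖a (τ 0) - q‖ ^ 2 ≤ Yt (fun i => a (τ i)) t q) :
    A * (G / √(mt t)) - omT y (C 0) (C 1) (C 2) hh t ≤
      ff A (Yt (fun i => a (τ i)) t q / √(mt t) - ‖a (τ 0) - q‖ ^ 2)
        (‖a (τ 0) - q‖ ^ 2) := by
  have s0 : 0 ≤ S (τ 0) := v.nn _
  have s1 : 0 ≤ S (τ 1) := v.nn _
  have s2 : 0 ≤ S (τ 2) := v.nn _
  have s3 : 0 ≤ S (τ 3) := v.nn _
  obtain ⟨t1, t2, t3⟩ := id ht
  have ht3 : (0 : ℝ) < 1 - t.1 - t.2 := by linarith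
  have hm0 : 0 < √(mt t) := Real.sqrt_pos.2 mt_pos
  have hmsq : √(mt t) ^ 2 = mt t := Real.sq_sqrt mt_pos.le
  have hy0 : 0 ≤ y := by
    have : 0 ≤ A * (dT + 1.031 * X) := mul_nonneg hA (by linarith)
    linarith
  have hown : own (S (τ 0)) t ≤ S (τ 0) := min_le_left _ _
  have hown0 : 0 ≤ own (S (τ 0)) t := own_nonneg s0 ht
  -- the chart
  obtain ⟨x, z, hx, hz, hxh, hzh, hmt, hE, htip⟩ : ∃ x z : ℝ, 0 < x ∧ 0 < z ∧ x ≤ hh ∧ z ≤ hh ∧
      mt t = 1 - x - z + x ^ 2 + z ^ 2 + x * z ∧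
      T3 t 0 * S (τ 1) + T3 t 1 * S (τ 2) + T3 t 2 * S (τ 3) ≤
        S (τ k.succ) + hh * (S (τ 1) + S (τ 2) + S (τ 3)) ∧
      min 2 (C k / (x + z)) ≤ tip (C 0) hh (c0 t) + tip (C 1) hh (c1 t) + tip (C 2) hh t := by
    have n0 := tip_nonneg (hC0 0) hh (c0 t)
    have n1 := tip_nonneg (hC0 1) hh (c1 t)
    have n2 := tip_nonneg (hC0 2) hh t
    have T0 : T3 t 0 = t.1 := rfl
    have T1 : T3 t 1 = t.2 := rfl
    have T2 : T3 t 2 = 1 - t.1 - t.2 := rfl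
    have q1 : ∀ u w : ℝ, 0 ≤ w → u ≤ hh → u * w ≤ hh * w := fun u w hw hu =>
      mul_le_mul_of_nonneg_right hu hw
    have q2 : ∀ u w : ℝ, 0 ≤ w → u ≤ 1 → u * w ≤ w := fun u w hw hu => by
      have := mul_le_mul_of_nonneg_right hu hw
      linarith
    have hhs : ∀ w : ℝ, 0 ≤ w → 0 ≤ hh * w := fun w hw => mul_nonneg hh0.le hw
    rw [T0, T1, T2]
    fin_cases k
    · have b1 : t.2 ≤ hh := htk 1 (by decide)
      have b2 : 1 - t.1 - t.2 ≤ hh := htk 2 (by decide)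
      refine ⟨1 - t.1 - t.2, t.2, ht3, t2, b2, b1, ?_, ?_, ?_⟩
      · unfold Helper33.MEI.mt
        ring
      · have := q2 t.1 _ s1 (by linarith)
        have := q1 t.2 _ s2 b1
        have := q1 (1 - t.1 - t.2) _ s3 b2
        have := hhs _ s1
        show _ ≤ S (τ 1) + _
        linarith
      · have e := tip_eq (C := C 0) (h := hh) (c0_mem.2 ht) b2 b1
        have e' : tip (C 0) hh (c0 t) = min 2 (C 0 / (1 - t.1 - t.2 + t.2)) := e
        show min 2 (C 0 / (1 - t.1 - t.2 + t.2)) ≤ _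
        linarith
    · have b1 : t.1 ≤ hh := htk 0 (by decide)
      have b2 : 1 - t.1 - t.2 ≤ hh := htk 2 (by decide)
      refine ⟨t.1, 1 - t.1 - t.2, t1, ht3, b1, b2, ?_, ?_, ?_⟩
      · unfold Helper33.MEI.mt
        ring
      · have := q2 t.2 _ s2 (by linarith)
        have := q1 t.1 _ s1 b1
        have := q1 (1 - t.1 - t.2) _ s3 b2
        have := hhs _ s2
        show _ ≤ S (τ 2) + _
        linarith
      · have e := tip_eq (C := C 1) (h := hh) (c1_mem.2 ht) b1 b2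
        have e' : tip (C 1) hh (c1 t) = min 2 (C 1 / (t.1 + (1 - t.1 - t.2))) := e
        show min 2 (C 1 / (t.1 + (1 - t.1 - t.2))) ≤ _
        linarith
    · have b1 : t.1 ≤ hh := htk 0 (by decide)
      have b2 : t.2 ≤ hh := htk 1 (by decide)
      refine ⟨t.1, t.2, t1, t2, b1, b2, ?_, ?_, ?_⟩
      · unfold Helper33.MEI.mt
        ring
      · have := q2 (1 - t.1 - t.2) _ s3 (by linarith)
        have := q1 t.1 _ s1 b1
        have := q1 t.2 _ s2 b2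
        have := hhs _ s3
        show _ ≤ S (τ 3) + _
        linarith
      · have e := tip_eq (C := C 2) (h := hh) ht b1 b2
        show min 2 (C 2 / (t.1 + t.2)) ≤ _
        linarith
  obtain ⟨m1, m2, m3⟩ := one_sub_m hx hz hxh hzh hh1 hm0.le (hmsq.trans hmt)
  have hm1 : 0 < 1 - √(mt t) := by linarith
  have hSk : 0 ≤ S (τ k.succ) := v.nn _
  have hhS : 0 ≤ hh * (S (τ 1) + S (τ 2) + S (τ 3)) := mul_nonneg hh0.le (by linarith)
  have hCn : 0 ≤ T3 t 0 * S (τ 1) + T3 t 1 * S (τ 2) + T3 t 2 * S (τ 3) := by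
    have T0 : 0 ≤ T3 t 0 := t1.le
    have T1 : 0 ≤ T3 t 1 := t2.le
    have T2 : 0 ≤ T3 t 2 := ht3.le
    have := mul_nonneg T0 s1
    have := mul_nonneg T1 s2
    have := mul_nonneg T2 s3
    linarith
  have hCX : T3 t 0 * S (τ 1) + T3 t 1 * S (τ 2) + T3 t 2 * S (τ 3) ≤
      S (τ 1) + S (τ 2) + S (τ 3) := by
    have T0 : T3 t 0 ≤ 1 := by
      show t.1 ≤ 1
      linarith
    have T1 : T3 t 1 ≤ 1 := by
      show t.2 ≤ 1
      linarith
    have T2 : T3 t 2 ≤ 1 := by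
      show 1 - t.1 - t.2 ≤ 1
      linarith
    have := mul_le_mul_of_nonneg_right T0 s1
    have := mul_le_mul_of_nonneg_right T1 s2
    have := mul_le_mul_of_nonneg_right T2 s3
    linarith
  -- the range
  have hW : min (1 + S (τ 0)) ((√(mt t) * own (S (τ 0)) t +
      (T3 t 0 * S (τ 1) + T3 t 1 * S (τ 2) + T3 t 2 * S (τ 3))) / (1 - √(mt t))) ≤
      tip (C 0) hh (c0 t) + tip (C 1) hh (c1 t) + tip (C 2) hh t := by
    refine le_trans ?_ htip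
    refine min_le_min (by linarith) ?_
    rw [div_le_div_iff₀ hm1 (by linarith)]
    have e1 : √(mt t) * own (S (τ 0)) t ≤ S (τ 0) := by
      have := mul_le_mul_of_nonneg_right m1.le hown0
      linarith
    have e2 : √(mt t) * own (S (τ 0)) t +
        (T3 t 0 * S (τ 1) + T3 t 1 * S (τ 2) + T3 t 2 * S (τ 3)) ≤ C k * (1 - 2 * hh) / 2 := by
      have := hC k
      linarith
    have e3 := mul_le_mul_of_nonneg_right e2 (show 0 ≤ x + z by linarith)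
    have e4 := mul_le_mul_of_nonneg_left m3 (hC0 k)
    linarith
  have key := tip_loss (G := G) (D := D) (y := y) h v τ hA (by linarith) ht hq hX hG hy0 (by
    have d : 0 < 1 - S (τ 0) := by linarith
    have k1 : 1 - (1 - D) / √(mt t) ≤ dT := by
      have e1 : 1 - dT ≤ (1 - D) / √(mt t) := by
        rw [le_div_iff₀ hm0]
        nlinarith
      linarith
    have k2 : 0.254 / (1 - S (τ 0)) ≤ 0.257 := by
      rw [div_le_iff₀ d]
      linarith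
    have k3 : (T3 t 0 * S (τ 1) + T3 t 1 * S (τ 2) + T3 t 2 * S (τ 3)) / √(mt t) ≤
        1.0205 * X := by
      rw [div_le_iff₀ hm0]
      nlinarith
    have k4 : A * ((T3 t 0 * S (τ 1) + T3 t 1 * S (τ 2) + T3 t 2 * S (τ 3)) / √(mt t)) /
        (1 - S (τ 0)) ≤ A * (1.031 * X) := by
      rw [div_le_iff₀ d]
      have e1 := mul_le_mul_of_nonneg_left k3 hA
      have e2 : 1.0205 * X ≤ 1.031 * X * (1 - S (τ 0)) := by
        have : S (τ 0) ≤ 1 / 100 := by linarith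
        have hX0 : 0 ≤ X := by linarith
        nlinarith
      have e3 := mul_le_mul_of_nonneg_left e2 hA
      linarith
    have k5 := mul_le_mul_of_nonneg_left k1 hA
    linarith) hW
  unfold omT
  exact key

end Helper75.MEI2
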