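import Pool.Agent.Helper75.MEI2.TentC

/-!
# Project MEI, all bodies: the mass of a node over its cone (three nodes)
-/

namespace Helper75.MEI2

open Set MeasureTheory Filter Topology Matrix
open scoped ENNReal
open Helper29.MEI (tent TD TD_meas TD_compact tent_cont tent_nonneg tent_scale)

theorem int_TD {f : ℝ × ℝ → ℝ} (hf : Continuous f) :
    ∫ p in TD, f p = ∫ x in (0 : ℝ)..1, ∫ y in (0 : ℝ)..(1 - x), f (x, y) :=
  Pool.Agent.Helper55.Sx.int_Sim hf

/-- the three moments -/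
theorem qp_mom (a b c d e f : ℝ) :
    ∫ t in TD, qp a b c d e f t.1 t.2 = a / 2 + b / 6 + c / 6 + d / 12 + e / 24 + f / 12 := by
  rw [int_TD (qp_cont a b c d e f)]
  have h : ∀ x : ℝ, ∫ y in (0 : ℝ)..(1 - x), qp a b c d e f x y =
      (a + c / 2 + f / 3) + (b - a + (e - 2 * c) / 2 - f) * x +
        (d - b + (c - 2 * e) / 2 + f) * x ^ 2 + (-d + e / 2 - f / 3) * x ^ 3 := by
    intro x
    have := qp_int1 a b c d e f (1 - x) x 0 0
    simp only [add_zero] at this
    rw [this]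
    unfold qi1
    ring
  simp only [h]
  rw [int_c3]
  ring

theorem qp_mom1 (a b c d e f : ℝ) :
    ∫ t in TD, t.1 * qp a b c d e f t.1 t.2 = qv a b c d e f 1 0 := by
  have hcf : Continuous fun t : ℝ × ℝ => t.1 * qp a b c d e f t.1 t.2 :=
    continuous_fst.mul (qp_cont a b c d e f)
  rw [int_TD hcf]
  have h : ∀ x : ℝ, ∫ y in (0 : ℝ)..(1 - x), x * qp a b c d e f x y =
      0 + (a + c / 2 + f / 3) * x + (b - a + (e - 2 * c) / 2 - f) * x ^ 2 +
        (d - b + (c - 2 * e) / 2 + f) * x ^ 3 + (-d + e / 2 - f / 3) * x ^ 4 := by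
    intro x
    rw [intervalIntegral.integral_const_mul]
    have := qp_int1 a b c d e f (1 - x) x 0 0
    simp only [add_zero] at this
    rw [this]
    unfold qi1
    ring
  simp only [h]
  rw [int_c4]
  unfold qv
  ring

theorem qp_mom2 (a b c d e f : ℝ) :
    ∫ t in TD, t.2 * qp a b c d e f t.1 t.2 = qv a b c d e f 0 1 := by
  have hcf : Continuous fun t : ℝ × ℝ => t.2 * qp a b c d e f t.1 t.2 :=
    continuous_snd.mul (qp_cont a b c d e f)
  rw [int_TD hcf]
  have h : ∀ x : ℝ, ∫ y in (0 : ℝ)..(1 - x), y * qp a b c d e f x y =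
      ((a / 2 + c / 3 + f / 4)) + (-a + b / 2 - c + e / 3 - f) * x +
        (a / 2 - b + c + d / 2 - e + 3 / 2 * f) * x ^ 2 +
        (b / 2 - c / 3 - d + e - f) * x ^ 3 + (d / 2 - e / 3 + f / 4) * x ^ 4 := by
    intro x
    have h1 : ∀ y : ℝ, y * qp a b c d e f x y = 0 + (a + b * x + d * x ^ 2) * y +
        (c + e * x) * y ^ 2 + f * y ^ 3 := by
      intro y
      unfold qp
      ring
    simp only [h1]
    rw [int_c3]
    ring
  simp only [h]
  rw [int_c4]
  unfold qv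
  ring

theorem qp_mom3 (a b c d e f : ℝ) :
    ∫ t in TD, (1 - t.1 - t.2) * qp a b c d e f t.1 t.2 = qv a b c d e f 0 0 := by
  have i0 : IntegrableOn (fun t : ℝ × ℝ => qp a b c d e f t.1 t.2) TD :=
    (qp_cont a b c d e f).continuousOn.integrableOn_compact TD_compact
  have i1 : IntegrableOn (fun t : ℝ × ℝ => t.1 * qp a b c d e f t.1 t.2) TD :=
    (continuous_fst.mul (qp_cont a b c d e f)).continuousOn.integrableOn_compact TD_compact
  have i2 : IntegrableOn (fun t : ℝ × ℝ => t.2 * qp a b c d e f t.1 t.2) TD :=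
    (continuous_snd.mul (qp_cont a b c d e f)).continuousOn.integrableOn_compact TD_compact
  have e1 : (fun t : ℝ × ℝ => (1 - t.1 - t.2) * qp a b c d e f t.1 t.2) =
      fun t => (qp a b c d e f t.1 t.2 - t.1 * qp a b c d e f t.1 t.2) -
        t.2 * qp a b c d e f t.1 t.2 := by
    funext t
    ring
  rw [e1]
  have i3 : IntegrableOn (fun t : ℝ × ℝ => qp a b c d e f t.1 t.2 -
    t.1 * qp a b c d e f t.1 t.2) TD := i0.sub i1
  rw [integral_sub i3 i2, integral_sub i0 i1, qp_mom, qp_mom1, qp_mom2]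
  unfold qv
  ring

/-- mean of the quadratic form against a coordinate -/
theorem corner_flat {M : Matrix (Fin 3) (Fin 3) ℝ} (hM : ∀ i j, 0 ≤ M i j) (hd : 0 < M.det) :
    1 / (54 * cc M 1 0 0 ^ 2) ≤ (∫ t in TD, vt t 0 / Qf (M *ᵥ vt t) ^ 2) ∧
    1 / (54 * cc M 0 1 0 ^ 2) ≤ (∫ t in TD, vt t 1 / Qf (M *ᵥ vt t) ^ 2) ∧
    1 / (54 * cc M 0 0 1 ^ 2) ≤ (∫ t in TD, vt t 2 / Qf (M *ᵥ vt t) ^ 2) := by
  have hone : ∀ (g : ℝ × ℝ → ℝ), (fun t : ℝ × ℝ => g t * qp 1 0 0 0 0 0 t.1 t.2) = g := by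
    intro g
    funext t
    unfold qp
    ring
  refine ⟨?_, ?_, ?_⟩
  · apply fQ_ge hM hd (f := fun t => vt t 0) (by unfold vt; fun_prop)
      (fun t ht => vt_nn.2 ht 0)
    · have h := qp_mom1 1 0 0 0 0 0
      rw [hone] at h
      simp only [vt, Matrix.cons_val_zero]
      rw [h]
      unfold qv
      norm_num
    · simp only [Qf_mv]
      simp only [vt, Matrix.cons_val_zero]
      rw [qp_mom1, qv_cc M (C := 0) (by norm_num)]
  · apply fQ_ge hM hd (f := fun t => vt t 1) (by unfold vt; fun_prop)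
      (fun t ht => vt_nn.2 ht 1)
    · have h := qp_mom2 1 0 0 0 0 0
      rw [hone] at h
      simp only [vt, Matrix.cons_val_one]
      simp only [Matrix.cons_val_zero]
      rw [h]
      unfold qv
      norm_num
    · simp only [Qf_mv]
      simp only [vt, Matrix.cons_val_one, Matrix.cons_val_zero]
      rw [qp_mom2, qv_cc M (C := 0) (by norm_num)]
  · apply fQ_ge hM hd (f := fun t => vt t 2) (by unfold vt; fun_prop)
      (fun t ht => vt_nn.2 ht 2)
    · have h := qp_mom3 1 0 0 0 0 0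
      rw [hone] at h
      simp only [vt, Matrix.cons_val]
      rw [h]
      unfold qv
      norm_num
    · simp only [Qf_mv]
      simp only [vt, Matrix.cons_val]
      rw [qp_mom3, qv_cc M (C := 1) (by norm_num)]

/-- **mass of a node in its cone** -/
theorem cornerC {M : Matrix (Fin 3) (Fin 3) ℝ} (hM : ∀ i j, 0 ≤ M i j) (hd : 0 < M.det) :
    M.det / (54 * cc M 1 0 0 ^ 2) ≤ (∫ t in TC M, mu M (vt t) 0 / Qf (vt t) ^ 2) ∧
    M.det / (54 * cc M 0 1 0 ^ 2) ≤ (∫ t in TC M, mu M (vt t) 1 / Qf (vt t) ^ 2) ∧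
    M.det / (54 * cc M 0 0 1 ^ 2) ≤ (∫ t in TC M, mu M (vt t) 2 / Qf (vt t) ^ 2) := by
  obtain ⟨h1, h2, h3⟩ := corner_flat hM hd
  have key : ∀ (k : Fin 3) (c : ℝ), 1 / (54 * c ^ 2) ≤ (∫ t in TD, vt t k / Qf (M *ᵥ vt t) ^ 2) →
      M.det / (54 * c ^ 2) ≤ ∫ t in TC M, mu M (vt t) k / Qf (vt t) ^ 2 := by
    intro k c hk
    have h := cone_change hM hd (f := fun v => v k) (measurable_pi_apply k)
      (fun v hv => hv k) (fun c hc v => by simp only [Pi.smul_apply, smul_eq_mul])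
    rw [h]
    calc M.det / (54 * c ^ 2) = M.det * (1 / (54 * c ^ 2)) := by ring
      _ ≤ _ := mul_le_mul_of_nonneg_left hk hd.le
  exact ⟨key 0 _ h1, key 1 _ h2, key 2 _ h3⟩

end Helper75.MEI2
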