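import Pool.Agent.Helper29.MEI.Tent

/-!
# Project MEI, all bodies: integrals over the cone of the contact points (change of coordinates)
-/

namespace Helper75.MEI2

open Set MeasureTheory Filter Topology Matrix
open scoped ENNReal

/-- vector of the three coordinates -/
def vt (t : ℝ × ℝ) : Fin 3 → ℝ := ![t.1, t.2, 1 - t.1 - t.2]

/-- square of the length in the coordinates of the regular corner -/
def Qf (b : Fin 3 → ℝ) : ℝ :=
  b 0 ^ 2 + b 1 ^ 2 + b 2 ^ 2 + b 0 * b 1 + b 0 * b 2 + b 1 * b 2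

theorem Qf_smul (c : ℝ) (b : Fin 3 → ℝ) : Qf (c • b) = c ^ 2 * Qf b := by
  simp only [Qf, Pi.smul_apply, smul_eq_mul]
  ring

theorem Qf_cont : Continuous Qf := by
  unfold Qf
  fun_prop

theorem Qf_nonneg (b : Fin 3 → ℝ) : 0 ≤ Qf b := by
  unfold Qf
  nlinarith [sq_nonneg (b 0 + b 1), sq_nonneg (b 0 + b 2), sq_nonneg (b 1 + b 2)]

theorem Qf_vt (t : ℝ × ℝ) : Qf (vt t) = 1 - Helper29.MEI.e2 t.1 t.2 := by
  simp only [Qf, vt, Matrix.cons_val_zero, Matrix.cons_val_one, Matrix.cons_val, Helper29.MEI.e2]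
  ring

theorem vt_cont : Continuous vt := by
  unfold vt
  fun_prop

/-- Fubini for three coordinates -/
theorem lint3 {F : (Fin 3 → ℝ) → ℝ≥0∞} (hF : Measurable F) :
    ∫⁻ v, F v = ∫⁻ a : ℝ, ∫⁻ b : ℝ, ∫⁻ c : ℝ, F ![a, b, c] := by
  have h1 := (volume_preserving_piFinSuccAbove (fun _ : Fin 3 => ℝ) 0).symm
  have h2 := (volume_preserving_finTwoArrow ℝ).symm
  have k1 : ∀ p : ℝ × (Fin 2 → ℝ),
      (MeasurableEquiv.piFinSuccAbove (fun _ : Fin 3 => ℝ) 0).symm p = ![p.1, p.2 0, p.2 1] := by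
    intro p
    ext i
    fin_cases i <;> rfl
  have k2 : ∀ q : ℝ × ℝ, (MeasurableEquiv.finTwoArrow (α := ℝ)).symm q = ![q.1, q.2] := by
    intro q
    ext i
    fin_cases i <;> rfl
  have m1 : Measurable fun p : ℝ × (Fin 2 → ℝ) => F ![p.1, p.2 0, p.2 1] := by
    have : Measurable fun p : ℝ × (Fin 2 → ℝ) =>
        F ((MeasurableEquiv.piFinSuccAbove (fun _ : Fin 3 => ℝ) 0).symm p) :=
      hF.comp (MeasurableEquiv.measurable _)
    simpa only [k1] using this
  have e1 : ∫⁻ v, F v = ∫⁻ p : ℝ × (Fin 2 → ℝ), F ![p.1, p.2 0, p.2 1] := by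
    rw [← h1.lintegral_comp hF]
    apply lintegral_congr
    intro p
    rw [k1]
  rw [e1, Measure.volume_eq_prod, lintegral_prod _ m1.aemeasurable]
  apply lintegral_congr
  intro a
  have m2 : Measurable fun w : Fin 2 → ℝ => F ![a, w 0, w 1] :=
    m1.comp (measurable_const.prodMk measurable_id)
  have e2 : ∫⁻ w : Fin 2 → ℝ, F ![a, w 0, w 1] = ∫⁻ q : ℝ × ℝ, F ![a, q.1, q.2] := by
    rw [← h2.lintegral_comp m2]
    apply lintegral_congr
    intro q
    rw [k2]
    rfl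
  have m3 : Measurable fun q : ℝ × ℝ => F ![a, q.1, q.2] := by
    have : Measurable fun q : ℝ × ℝ =>
        F ![a, (MeasurableEquiv.finTwoArrow (α := ℝ)).symm q 0,
          (MeasurableEquiv.finTwoArrow (α := ℝ)).symm q 1] :=
      m2.comp (MeasurableEquiv.measurable _)
    simp only [k2] at this
    exact this
  rw [e2, Measure.volume_eq_prod]
  exact lintegral_prod _ m3.aemeasurable

theorem lint_cube {Q : ℝ} (hQ : 0 < Q) :
    ∫⁻ τ : ℝ, {τ : ℝ | 0 < τ ∧ τ ^ 2 * Q ≤ 1}.indicator (fun τ => ENNReal.ofReal (τ ^ 3)) τ =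
      ENNReal.ofReal (1 / (4 * Q ^ 2)) := by
  set r : ℝ := 1 / √Q with hr
  have hs : 0 < √Q := Real.sqrt_pos.2 hQ
  have hr0 : 0 < r := by positivity
  have hr2 : r ^ 2 * Q = 1 := by
    rw [hr, div_pow, Real.sq_sqrt hQ.le]
    field_simp
  have hset : {τ : ℝ | 0 < τ ∧ τ ^ 2 * Q ≤ 1} = Ioc 0 r := by
    ext τ
    simp only [mem_ofPred_eq, mem_Ioc]
    constructor
    · rintro ⟨h1, h2⟩
      refine ⟨h1, ?_⟩
      by_contra h3
      push Not at h3
      have h4 : r ^ 2 < τ ^ 2 := by nlinarith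
      nlinarith
    · rintro ⟨h1, h2⟩
      refine ⟨h1, ?_⟩
      have h4 : τ ^ 2 ≤ r ^ 2 := by nlinarith
      nlinarith
  rw [hset, lintegral_indicator measurableSet_Ioc,
    ← ofReal_integral_eq_lintegral_ofReal]
  · congr 1
    rw [← intervalIntegral.integral_of_le hr0.le, integral_pow]
    have h4 : r ^ 4 * Q ^ 2 = 1 := by
      calc r ^ 4 * Q ^ 2 = (r ^ 2 * Q) ^ 2 := by ring
        _ = 1 := by rw [hr2]; norm_num
    have hQ2 : Q ^ 2 ≠ 0 := by positivity
    field_simp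
    norm_num
    linarith
  · exact (by fun_prop : Continuous fun τ : ℝ => τ ^ 3).integrableOn_Ioc
  · filter_upwards [ae_restrict_mem measurableSet_Ioc] with τ hτ
    have := hτ.1
    positivity

/-- **integration of a degree one function over a cone** -/
theorem hom_lint {S : Set (Fin 3 → ℝ)} (hS : MeasurableSet S)
    (hSc : ∀ c : ℝ, 0 < c → ∀ v, c • v ∈ S ↔ v ∈ S)
    (hSp : ∀ v ∈ S, 0 ≤ v 0 + v 1 + v 2)
    {q : (Fin 3 → ℝ) → ℝ} (hq : Measurable q) (hqs : ∀ (c : ℝ) v, q (c • v) = c ^ 2 * q v)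
    (hqp : ∀ t, vt t ∈ S → 0 < q (vt t))
    {G : (Fin 3 → ℝ) → ℝ} (hG : Measurable G)
    (hGs : ∀ c : ℝ, 0 < c → ∀ v, G (c • v) = c * G v) :
    ∫⁻ v, {v | v ∈ S ∧ q v ≤ 1}.indicator (fun v => ENNReal.ofReal (G v)) v =
      ∫⁻ x : ℝ, ∫⁻ y : ℝ, {t : ℝ × ℝ | vt t ∈ S}.indicator
        (fun t => ENNReal.ofReal (G (vt t) / (4 * q (vt t) ^ 2))) (x, y) := by
  have hm1 : MeasurableSet {v : Fin 3 → ℝ | v ∈ S ∧ q v ≤ 1} :=
    hS.inter (measurableSet_le hq measurable_const)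
  have hmF : Measurable ({v : Fin 3 → ℝ | v ∈ S ∧ q v ≤ 1}.indicator
      (fun v => ENNReal.ofReal (G v))) := hG.ennreal_ofReal.indicator hm1
  rw [lint3 hmF]
  set F : ℝ → ℝ → ℝ → ℝ≥0∞ := fun a b c =>
    {v : Fin 3 → ℝ | v ∈ S ∧ q v ≤ 1}.indicator (fun v => ENNReal.ofReal (G v)) ![a, b, c] with hFd
  have hmF3 : Measurable fun p : ℝ × ℝ × ℝ => F p.1 p.2.1 p.2.2 := by
    have : Measurable fun p : ℝ × ℝ × ℝ => (![p.1, p.2.1, p.2.2] : Fin 3 → ℝ) := by
      apply measurable_pi_lambda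
      intro i
      fin_cases i <;> simp <;> fun_prop
    exact hmF.comp this
  rw [show (∫⁻ a : ℝ, ∫⁻ b : ℝ, ∫⁻ c : ℝ, {v : Fin 3 → ℝ | v ∈ S ∧ q v ≤ 1}.indicator
      (fun v => ENNReal.ofReal (G v)) ![a, b, c]) = ∫⁻ a, ∫⁻ b, ∫⁻ c, F a b c from rfl,
    Helper29.MEI.cone_lint hmF3]
  apply lintegral_congr
  intro x
  apply lintegral_congr
  intro y
  have hv : ∀ τ : ℝ, (![τ * x, τ * y, τ * (1 - x - y)] : Fin 3 → ℝ) = τ • vt (x, y) := by
    intro τ
    ext i
    fin_cases i <;> simp [vt]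
  have hF : ∀ τ, F (τ * x) (τ * y) (τ * (1 - x - y)) =
      {v : Fin 3 → ℝ | v ∈ S ∧ q v ≤ 1}.indicator (fun v => ENNReal.ofReal (G v))
        (τ • vt (x, y)) := by
    intro τ
    rw [← hv]
  simp only [hF]
  have hsum : vt (x, y) 0 + vt (x, y) 1 + vt (x, y) 2 = 1 := by
    simp only [vt, Matrix.cons_val_zero, Matrix.cons_val_one, Matrix.cons_val]
    ring
  have hneg : ∀ τ : ℝ, τ < 0 → τ • vt (x, y) ∉ S := by
    intro τ hτ hmem
    have h1 := hSp _ hmem
    simp only [Pi.smul_apply, smul_eq_mul] at h1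
    nlinarith
  by_cases ht : vt (x, y) ∈ S
  · rw [indicator_of_mem (show (x, y) ∈ {t : ℝ × ℝ | vt t ∈ S} from ht)]
    have hQ := hqp _ ht
    have e1 : ∀ τ : ℝ, ENNReal.ofReal (τ ^ 2) *
        {v : Fin 3 → ℝ | v ∈ S ∧ q v ≤ 1}.indicator (fun v => ENNReal.ofReal (G v))
          (τ • vt (x, y)) =
        ENNReal.ofReal (G (vt (x, y))) * {τ : ℝ | 0 < τ ∧ τ ^ 2 * q (vt (x, y)) ≤ 1}.indicator
          (fun τ => ENNReal.ofReal (τ ^ 3)) τ := by
      intro τ
      by_cases hτ : 0 < τ ∧ τ ^ 2 * q (vt (x, y)) ≤ 1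
      · rw [indicator_of_mem (show τ ∈ {τ : ℝ | 0 < τ ∧ τ ^ 2 * q (vt (x, y)) ≤ 1} from hτ),
          indicator_of_mem, hGs τ hτ.1, ENNReal.ofReal_mul hτ.1.le, ← mul_assoc,
          ← ENNReal.ofReal_mul (sq_nonneg _), mul_comm]
        · congr 2
        · exact ⟨(hSc τ hτ.1 _).2 ht, by rw [hqs]; exact hτ.2⟩
      · rw [indicator_of_notMem (show τ ∉ {τ : ℝ | 0 < τ ∧ τ ^ 2 * q (vt (x, y)) ≤ 1} from hτ),
          mul_zero]
        rcases lt_trichotomy τ 0 with h | h | h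
        · rw [indicator_of_notMem, mul_zero]
          rintro ⟨h1, -⟩
          exact hneg τ h h1
        · rw [h]
          simp
        · rw [indicator_of_notMem, mul_zero]
          rintro ⟨-, h2⟩
          rw [hqs] at h2
          exact hτ ⟨h, h2⟩
    simp only [e1]
    rw [lintegral_const_mul _ (by
      apply Measurable.indicator
      · fun_prop
      · exact (measurableSet_lt measurable_const measurable_id).inter
          (measurableSet_le (f := fun τ : ℝ => τ ^ 2 * q (vt (x, y))) (by fun_prop)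
            measurable_const)), lint_cube hQ,
      ← ENNReal.ofReal_mul' (by positivity), mul_one_div]
  · rw [indicator_of_notMem (show (x, y) ∉ {t : ℝ × ℝ | vt t ∈ S} from ht)]
    rw [lintegral_eq_zero_iff']
    · filter_upwards with τ
      simp only [Pi.zero_apply, mul_eq_zero]
      rcases lt_trichotomy τ 0 with h | h | h
      · right
        rw [indicator_of_notMem]
        rintro ⟨h1, -⟩
        exact hneg τ h h1
      · left
        rw [h]
        simp
      · right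
        rw [indicator_of_notMem]
        rintro ⟨h1, -⟩
        exact ht ((hSc τ h _).1 h1)
    · apply Measurable.aemeasurable
      have h5 : Measurable fun τ : ℝ => τ • vt (x, y) := by fun_prop
      exact (by fun_prop : Measurable fun τ : ℝ => ENNReal.ofReal (τ ^ 2)).mul (hmF.comp h5)

end Helper75.MEI2
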