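import Pool.Agent.Helper75.MEI2.Cone

/-!
# Project MEI, all bodies: the cone of the contact points in its own coordinates
-/

namespace Helper75.MEI2

open Set MeasureTheory Filter Topology Matrix
open scoped ENNReal

/-- coordinates with respect to the columns of `M` -/
noncomputable def mu (M : Matrix (Fin 3) (Fin 3) ℝ) (b : Fin 3 → ℝ) : Fin 3 → ℝ := M⁻¹ *ᵥ b

theorem mu_smul (M : Matrix (Fin 3) (Fin 3) ℝ) (c : ℝ) (b : Fin 3 → ℝ) :
    mu M (c • b) = c • mu M b := by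
  simp only [mu, Matrix.mulVec_smul]

theorem mu_mul {M : Matrix (Fin 3) (Fin 3) ℝ} (hd : 0 < M.det) (v : Fin 3 → ℝ) :
    mu M (M *ᵥ v) = v := by
  have h : IsUnit M.det := isUnit_iff_ne_zero.2 hd.ne'
  rw [mu, Matrix.mulVec_mulVec, Matrix.nonsing_inv_mul _ h, Matrix.one_mulVec]

theorem mul_mu {M : Matrix (Fin 3) (Fin 3) ℝ} (hd : 0 < M.det) (b : Fin 3 → ℝ) :
    M *ᵥ (mu M b) = b := by
  have h : IsUnit M.det := isUnit_iff_ne_zero.2 hd.ne'
  rw [mu, Matrix.mulVec_mulVec, Matrix.mul_nonsing_inv _ h, Matrix.one_mulVec]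

theorem mv_cont (M : Matrix (Fin 3) (Fin 3) ℝ) : Continuous fun v : Fin 3 → ℝ => M *ᵥ v := by
  exact continuous_const.matrix_mulVec continuous_id

theorem mu_cont (M : Matrix (Fin 3) (Fin 3) ℝ) : Continuous (mu M) := mv_cont M⁻¹

theorem nn_cone_meas : MeasurableSet {v : Fin 3 → ℝ | ∀ i, 0 ≤ v i} := by
  have : {v : Fin 3 → ℝ | ∀ i, 0 ≤ v i} = ⋂ i, {v : Fin 3 → ℝ | 0 ≤ v i} := by
    ext v
    simp
  rw [this]
  exact MeasurableSet.iInter fun i => measurableSet_le measurable_const (measurable_pi_apply i)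

theorem smul_nn {c : ℝ} (hc : 0 < c) (v : Fin 3 → ℝ) : (∀ i, 0 ≤ (c • v) i) ↔ ∀ i, 0 ≤ v i := by
  constructor
  · intro h i
    have := h i
    simp only [Pi.smul_apply, smul_eq_mul] at this
    exact nonneg_of_mul_nonneg_right this hc
  · intro h i
    simp only [Pi.smul_apply, smul_eq_mul]
    exact mul_nonneg hc.le (h i)

theorem Qf_vt_pos (t : ℝ × ℝ) : 0 < Qf (vt t) := by
  rw [Qf_vt]
  have := Helper29.MEI.e2_le (x := t.1) (y := t.2)
  linarith

theorem Qf_pos_of {b : Fin 3 → ℝ} (hb : ∀ i, 0 ≤ b i) (h : b ≠ 0) : 0 < Qf b := by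
  rcases lt_or_eq_of_le (Qf_nonneg b) with h1 | h1
  · exact h1
  · exfalso
    apply h
    have h2 : Qf b = 0 := h1.symm
    unfold Qf at h2
    have j0 := hb 0
    have j1 := hb 1
    have j2 := hb 2
    have k1 : 0 ≤ b 0 * b 1 := mul_nonneg j0 j1
    have k2 : 0 ≤ b 0 * b 2 := mul_nonneg j0 j2
    have k3 : 0 ≤ b 1 * b 2 := mul_nonneg j1 j2
    have l0 : b 0 ^ 2 = 0 := by nlinarith [sq_nonneg (b 0), sq_nonneg (b 1), sq_nonneg (b 2)]
    have l1 : b 1 ^ 2 = 0 := by nlinarith [sq_nonneg (b 0), sq_nonneg (b 1), sq_nonneg (b 2)]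
    have l2 : b 2 ^ 2 = 0 := by nlinarith [sq_nonneg (b 0), sq_nonneg (b 1), sq_nonneg (b 2)]
    ext i
    fin_cases i
    · simpa using l0
    · simpa using l1
    · simpa using l2

theorem mv_nonneg {M : Matrix (Fin 3) (Fin 3) ℝ} (hM : ∀ i j, 0 ≤ M i j) {v : Fin 3 → ℝ}
    (hv : ∀ i, 0 ≤ v i) (i : Fin 3) : 0 ≤ (M *ᵥ v) i := by
  simp only [Matrix.mulVec, dotProduct]
  exact Finset.sum_nonneg fun j _ => mul_nonneg (hM i j) (hv j)

theorem vt_nn {t : ℝ × ℝ} : (∀ i, 0 ≤ vt t i) ↔ t ∈ Helper29.MEI.TD := by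
  constructor
  · intro h
    have h0 := h 0
    have h1 := h 1
    have h2 := h 2
    simp only [vt, Matrix.cons_val_zero, Matrix.cons_val_one, Matrix.cons_val] at h0 h1 h2
    exact ⟨h0, h1, by linarith⟩
  · rintro ⟨h0, h1, h2⟩ i
    fin_cases i <;> simp [vt] <;> linarith

/-- linear change of variables -/
theorem lint_lin {M : Matrix (Fin 3) (Fin 3) ℝ} (hd : 0 < M.det) {F : (Fin 3 → ℝ) → ℝ≥0∞}
    (hF : Measurable F) :
    ∫⁻ b, F b = ENNReal.ofReal M.det * ∫⁻ v, F (M *ᵥ v) := by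
  have h1 := Real.map_matrix_volume_pi_eq_smul_volume_pi (M := M) hd.ne'
  have h2 : ∫⁻ v, F (M *ᵥ v) = ENNReal.ofReal |M.det⁻¹| * ∫⁻ b, F b := by
    have h3 : ∫⁻ v, F (M *ᵥ v) = ∫⁻ b, F b ∂(Measure.map (Matrix.toLin' M) volume) := by
      rw [lintegral_map hF (by
        have : Continuous fun v : Fin 3 → ℝ => M *ᵥ v := mv_cont M
        exact this.measurable)]
      rfl
    rw [h3, h1, lintegral_smul_measure, smul_eq_mul]
  rw [h2, ← mul_assoc, ← ENNReal.ofReal_mul hd.le, abs_of_pos (inv_pos.2 hd),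
    mul_inv_cancel₀ hd.ne', ENNReal.ofReal_one, one_mul]

/-- the part of the triangle inside the cone -/
def TC (M : Matrix (Fin 3) (Fin 3) ℝ) : Set (ℝ × ℝ) :=
  {t | (∀ i, 0 ≤ vt t i) ∧ ∀ i, 0 ≤ mu M (vt t) i}

theorem TC_sub (M : Matrix (Fin 3) (Fin 3) ℝ) : TC M ⊆ Helper29.MEI.TD := fun _ ht => vt_nn.1 ht.1

theorem cone_meas (M : Matrix (Fin 3) (Fin 3) ℝ) :
    MeasurableSet {b : Fin 3 → ℝ | (∀ i, 0 ≤ b i) ∧ ∀ i, 0 ≤ mu M b i} :=
  nn_cone_meas.inter (nn_cone_meas.preimage (mu_cont M).measurable)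

theorem TC_meas (M : Matrix (Fin 3) (Fin 3) ℝ) : MeasurableSet (TC M) :=
  (cone_meas M).preimage vt_cont.measurable

/-- **the cone in its own coordinates** -/
theorem cone_change_lint {M : Matrix (Fin 3) (Fin 3) ℝ} (hM : ∀ i j, 0 ≤ M i j) (hd : 0 < M.det)
    {f : (Fin 3 → ℝ) → ℝ} (hf : Measurable f) (hfs : ∀ c : ℝ, 0 < c → ∀ v, f (c • v) = c * f v) :
    ∫⁻ t in TC M, ENNReal.ofReal (f (mu M (vt t)) / (4 * Qf (vt t) ^ 2)) =
      ENNReal.ofReal M.det *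
        ∫⁻ t in Helper29.MEI.TD, ENNReal.ofReal (f (vt t) / (4 * Qf (M *ᵥ vt t) ^ 2)) := by
  have hlin := lint_lin hd (F := {b : Fin 3 → ℝ | b ∈ {b : Fin 3 → ℝ | (∀ i, 0 ≤ b i) ∧
      ∀ i, 0 ≤ mu M b i} ∧ Qf b ≤ 1}.indicator fun b => ENNReal.ofReal (f (mu M b)))
    (((hf.comp (mu_cont M).measurable).ennreal_ofReal).indicator
      ((cone_meas M).inter (measurableSet_le Qf_cont.measurable measurable_const)))
  have h1 := hom_lint (S := {b : Fin 3 → ℝ | (∀ i, 0 ≤ b i) ∧ ∀ i, 0 ≤ mu M b i}) (cone_meas M)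
    (fun c hc v => by
      simp only [mem_ofPred_eq, mu_smul]
      rw [smul_nn hc, smul_nn hc])
    (fun v hv => by
      have := hv.1
      linarith [this 0, this 1, this 2])
    (q := Qf) Qf_cont.measurable (fun c v => Qf_smul c v) (fun t _ => Qf_vt_pos t)
    (G := fun b => f (mu M b)) (hf.comp (mu_cont M).measurable)
    (fun c hc v => by rw [mu_smul]; exact hfs c hc _)
  have h2 := hom_lint (S := {v : Fin 3 → ℝ | ∀ i, 0 ≤ v i}) nn_cone_meas
    (fun c hc v => smul_nn hc v) (fun v hv => by linarith [hv 0, hv 1, hv 2])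
    (q := fun v => Qf (M *ᵥ v)) (Qf_cont.comp (mv_cont M)).measurable
    (fun c v => by rw [Matrix.mulVec_smul, Qf_smul])
    (fun t ht => by
      apply Qf_pos_of (mv_nonneg hM ht)
      intro h0
      have h3 : vt t = 0 := by
        rw [← mu_mul hd (vt t), h0]
        simp [mu]
      have h4 : vt t 0 + vt t 1 + vt t 2 = 1 := by
        simp only [vt, Matrix.cons_val_zero, Matrix.cons_val_one, Matrix.cons_val]
        ring
      rw [h3] at h4
      simp at h4)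
    (G := f) hf hfs
  have h3 : ∀ v : Fin 3 → ℝ, {b : Fin 3 → ℝ | b ∈ {b : Fin 3 → ℝ | (∀ i, 0 ≤ b i) ∧
      ∀ i, 0 ≤ mu M b i} ∧ Qf b ≤ 1}.indicator (fun b => ENNReal.ofReal (f (mu M b))) (M *ᵥ v) =
      {v : Fin 3 → ℝ | v ∈ {v : Fin 3 → ℝ | ∀ i, 0 ≤ v i} ∧ Qf (M *ᵥ v) ≤ 1}.indicator
        (fun v => ENNReal.ofReal (f v)) v := by
    intro v
    by_cases hv : (∀ i, 0 ≤ v i) ∧ Qf (M *ᵥ v) ≤ 1
    · rw [indicator_of_mem, indicator_of_mem, mu_mul hd]
      · exact hv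
      · exact ⟨⟨mv_nonneg hM hv.1, by rw [mu_mul hd]; exact hv.1⟩, hv.2⟩
    · rw [indicator_of_notMem, indicator_of_notMem]
      · exact hv
      · rintro ⟨⟨-, h4⟩, h5⟩
        rw [mu_mul hd] at h4
        exact hv ⟨h4, h5⟩
  simp only [h3] at hlin
  rw [h1, h2] at hlin
  have m1 : Measurable ({t : ℝ × ℝ | vt t ∈ {b : Fin 3 → ℝ | (∀ i, 0 ≤ b i) ∧
      ∀ i, 0 ≤ mu M b i}}.indicator fun t =>
        ENNReal.ofReal (f (mu M (vt t)) / (4 * Qf (vt t) ^ 2))) := by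
    apply Measurable.indicator _ (TC_meas M)
    apply Measurable.ennreal_ofReal
    apply Measurable.div
    · exact hf.comp ((mu_cont M).comp vt_cont).measurable
    · exact measurable_const.mul ((Qf_cont.comp vt_cont).measurable.pow_const 2)
  have m2 : Measurable ({t : ℝ × ℝ | vt t ∈ {v : Fin 3 → ℝ | ∀ i, 0 ≤ v i}}.indicator fun t =>
        ENNReal.ofReal (f (vt t) / (4 * Qf (M *ᵥ vt t) ^ 2))) := by
    apply Measurable.indicator _ (nn_cone_meas.preimage vt_cont.measurable)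
    apply Measurable.ennreal_ofReal
    apply Measurable.div
    · exact hf.comp vt_cont.measurable
    · exact measurable_const.mul (((Qf_cont.comp (mv_cont M)).comp vt_cont).measurable.pow_const 2)
  have l1 := lintegral_prod (μ := (volume : Measure ℝ)) (ν := (volume : Measure ℝ)) _
    m1.aemeasurable
  have l2 := lintegral_prod (μ := (volume : Measure ℝ)) (ν := (volume : Measure ℝ)) _
    m2.aemeasurable
  rw [← l1, ← l2, ← Measure.volume_eq_prod] at hlin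
  have s1 : {t : ℝ × ℝ | vt t ∈ {b : Fin 3 → ℝ | (∀ i, 0 ≤ b i) ∧ ∀ i, 0 ≤ mu M b i}} = TC M :=
    rfl
  have s2 : {t : ℝ × ℝ | vt t ∈ {v : Fin 3 → ℝ | ∀ i, 0 ≤ v i}} = Helper29.MEI.TD := by
    ext t
    exact vt_nn
  rw [s1, s2, lintegral_indicator (TC_meas M), lintegral_indicator Helper29.MEI.TD_meas] at hlin
  exact hlin

end Helper75.MEI2
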