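import Pool.Agent.Helper75.MEI2.Cone2

/-!
# Project MEI, all bodies: the cone of the contact points, real integrals
-/

namespace Helper75.MEI2

open Set MeasureTheory Filter Topology Matrix
open scoped ENNReal

/-- **the cone in its own coordinates** (real integrals) -/
theorem cone_change {M : Matrix (Fin 3) (Fin 3) ℝ} (hM : ∀ i j, 0 ≤ M i j) (hd : 0 < M.det)
    {f : (Fin 3 → ℝ) → ℝ} (hf : Measurable f) (hf0 : ∀ v : Fin 3 → ℝ, (∀ i, 0 ≤ v i) → 0 ≤ f v)
    (hfs : ∀ c : ℝ, 0 < c → ∀ v, f (c • v) = c * f v) :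
    ∫ t in TC M, f (mu M (vt t)) / Qf (vt t) ^ 2 =
      M.det * ∫ t in Helper29.MEI.TD, f (vt t) / Qf (M *ᵥ vt t) ^ 2 := by
  have h := cone_change_lint hM hd hf hfs
  have m1 : Measurable fun t : ℝ × ℝ => f (mu M (vt t)) / (4 * Qf (vt t) ^ 2) := by
    apply Measurable.div
    · exact hf.comp ((mu_cont M).comp vt_cont).measurable
    · exact measurable_const.mul ((Qf_cont.comp vt_cont).measurable.pow_const 2)
  have m2 : Measurable fun t : ℝ × ℝ => f (vt t) / (4 * Qf (M *ᵥ vt t) ^ 2) := by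
    apply Measurable.div
    · exact hf.comp vt_cont.measurable
    · exact measurable_const.mul (((Qf_cont.comp (mv_cont M)).comp vt_cont).measurable.pow_const 2)
  have e1 : ∫ t in TC M, f (mu M (vt t)) / (4 * Qf (vt t) ^ 2) =
      M.det * ∫ t in Helper29.MEI.TD, f (vt t) / (4 * Qf (M *ᵥ vt t) ^ 2) := by
    rw [integral_eq_lintegral_of_nonneg_ae _ m1.aestronglyMeasurable,
      integral_eq_lintegral_of_nonneg_ae _ m2.aestronglyMeasurable, h, ENNReal.toReal_mul,
      ENNReal.toReal_ofReal hd.le]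
    · filter_upwards [ae_restrict_mem Helper29.MEI.TD_meas] with t ht
      exact div_nonneg (hf0 _ (vt_nn.2 ht)) (by positivity)
    · filter_upwards [ae_restrict_mem (TC_meas M)] with t ht
      exact div_nonneg (hf0 _ ht.2) (by positivity)
  have k1 : (∫ t in TC M, f (mu M (vt t)) / (4 * Qf (vt t) ^ 2)) =
      1 / 4 * ∫ t in TC M, f (mu M (vt t)) / Qf (vt t) ^ 2 := by
    rw [← integral_const_mul]
    congr 1
    funext t
    ring
  have k2 : (∫ t in Helper29.MEI.TD, f (vt t) / (4 * Qf (M *ᵥ vt t) ^ 2)) =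
      1 / 4 * ∫ t in Helper29.MEI.TD, f (vt t) / Qf (M *ᵥ vt t) ^ 2 := by
    rw [← integral_const_mul]
    congr 1
    funext t
    ring
  rw [k1, k2] at e1
  linarith

/-- the tangent weight -/
theorem weight_tan {q q0 : ℝ} (hq : 0 < q) (hq0 : 0 < q0) :
    (3 - 2 * q / q0) / q0 ^ 2 ≤ 1 / q ^ 2 := by
  rw [div_le_div_iff₀ (by positivity) (by positivity)]
  have h : (3 - 2 * q / q0) = (3 * q0 - 2 * q) / q0 := by
    field_simp
  rw [h, div_mul_eq_mul_div, div_le_iff₀ hq0]
  nlinarith [mul_nonneg (sq_nonneg (q - q0)) (by positivity : 0 ≤ q0 + 2 * q)]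

end Helper75.MEI2
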