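import Pool.Agent.Helper78.MEI.WB7

/-!
# Project MEI (M2), regime I: parameters and final numbers of the tables
-/

set_option autoImplicit false

namespace Helper75.T1p

open Helper60.R8 Helper78.MEI

/-- parameters of regime I -/
def P : Par := ⟨2000, 666667, 15810, 48460, 37577, 32135, 88830, 153230, 388900⟩

/-- the rows of the vertices, bit `b`, from the vertex `v` on -/
def rk (As : List Alt) (b : ℕ) : ℕ → List Row → Bool
  | _, [] => true
  | v, R :: Rs => rowck P As v b R && rk As b (v + 1) Rs

/-- the row contract, twelve rows -/
def tk (As : List Alt) (b p0 p1 : ℕ) (Q : Cor) : Bool :=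
  Nat.beq Q.rows.length 12 && rk As b 0 Q.rows && (As.all fun A => A.ok p0 p1) &&
    Nat.ble Q.nl As.length && Nat.ble Q.ne 0 && Nat.ble p0 p1 && Nat.ble p1 U6

/-- bounds of the weights, bit `0` -/
def Pl : List ℕ := [0, 97671074652887658982, 92379273060438795381, 2599066026829572703, 2536002723192899753, 120119329088995991443, 41366712179790287614, 41345407560450526217, 66812993997138202057, 66911937693118458325, 28042146909504377604, 45131356941047073732]

/-- increments of the bit `1` -/
def Dl : List ℕ := [0, 165514091024297231378, 112809028415887765047, 44967688778693532499, 45499184150590476926, 145433234446681288149, 97609208703756017360, 98474979494683306012, 105420249190766172862, 105971759357205066694, 63875644502916709194, 76758839564178213172]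

/-- **the final numbers** -/
theorem fin : fck Pl Dl 2000 0 52331445 21420000 = true := by decide +kernel

end Helper75.T1p
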