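import Pool.Agent.Helper75.MEI2.TentR
import Pool.Agent.Helper55.MEI.Sx

/-!
# Project MEI, all bodies: the tent integral in the cone of the contact points
-/

namespace Helper75.MEI2

open Set MeasureTheory Filter Topology Matrix
open scoped ENNReal
open Helper29.MEI (tent TD TD_meas TD_compact tent_cont tent_nonneg tent_scale)

/-- column of `M` -/
def col (M : Matrix (Fin 3) (Fin 3) ℝ) (k : Fin 3) : Fin 3 → ℝ := fun l => M l k

/-- squared length of a node -/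
def nn (M : Matrix (Fin 3) (Fin 3) ℝ) (k : Fin 3) : ℝ := Qf (col M k)

/-- squared distance of two nodes -/
def dd (M : Matrix (Fin 3) (Fin 3) ℝ) (j k : Fin 3) : ℝ := Qf (fun l => M l j - M l k)

theorem Qf_mv (M : Matrix (Fin 3) (Fin 3) ℝ) (t : ℝ × ℝ) :
    Qf (M *ᵥ vt t) = qp (nn M 2) (nn M 0 - nn M 2 - dd M 0 2) (nn M 1 - nn M 2 - dd M 1 2)
      (dd M 0 2) (dd M 0 2 + dd M 1 2 - dd M 0 1) (dd M 1 2) t.1 t.2 := by
  simp only [Qf, qp, nn, dd, col, Matrix.mulVec, dotProduct, Fin.sum_univ_three, vt,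
    Matrix.cons_val_zero, Matrix.cons_val_one, Matrix.cons_val]
  ring

/-- the mean of the quadratic form against the tent -/
noncomputable def cc (M : Matrix (Fin 3) (Fin 3) ℝ) (A B C : ℝ) : ℝ :=
  (nn M 0 * (1 + A) + nn M 1 * (1 + B) + nn M 2 * (1 + C)) / 12 -
    (dd M 0 1 * (1 + A + B + 2 * A * B) + dd M 0 2 * (1 + A + C + 2 * A * C) +
      dd M 1 2 * (1 + B + C + 2 * B * C)) / 60

theorem qv_cc (M : Matrix (Fin 3) (Fin 3) ℝ) {A B C : ℝ} (hs : A + B + C = 1) :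
    qv (nn M 2) (nn M 0 - nn M 2 - dd M 0 2) (nn M 1 - nn M 2 - dd M 1 2)
      (dd M 0 2) (dd M 0 2 + dd M 1 2 - dd M 0 1) (dd M 1 2) A B = cc M A B C / 2 := by
  have hC : C = 1 - A - B := by linarith
  rw [hC]
  unfold qv cc
  ring

theorem Qf_mv_pos {M : Matrix (Fin 3) (Fin 3) ℝ} (hM : ∀ i j, 0 ≤ M i j) (hd : 0 < M.det)
    {t : ℝ × ℝ} (ht : t ∈ TD) : 0 < Qf (M *ᵥ vt t) := by
  apply Qf_pos_of (mv_nonneg hM (vt_nn.2 ht))
  intro h0
  have h3 : vt t = 0 := by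
    rw [← mu_mul hd (vt t), h0]
    simp [mu]
  have h4 : vt t 0 + vt t 1 + vt t 2 = 1 := by
    simp only [vt, Matrix.cons_val_zero, Matrix.cons_val_one, Matrix.cons_val]
    ring
  rw [h3] at h4
  simp at h4

theorem fQ_int {M : Matrix (Fin 3) (Fin 3) ℝ} (hM : ∀ i j, 0 ≤ M i j) (hd : 0 < M.det)
    {f : ℝ × ℝ → ℝ} (hf : Continuous f) :
    IntegrableOn (fun t => f t / Qf (M *ᵥ vt t) ^ 2) TD := by
  refine ContinuousOn.integrableOn_compact TD_compact ?_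
  apply hf.continuousOn.div
  · exact (((Qf_cont.comp (mv_cont M)).comp vt_cont).pow 2).continuousOn
  · intro t ht
    exact (pow_pos (Qf_mv_pos hM hd ht) 2).ne'

/-- lower bound by the tangent weight, general nonnegative function -/
theorem fQ_ge {M : Matrix (Fin 3) (Fin 3) ℝ} (hM : ∀ i j, 0 ≤ M i j) (hd : 0 < M.det)
    {f : ℝ × ℝ → ℝ} (hf : Continuous f) (hf0 : ∀ t ∈ TD, 0 ≤ f t) {c : ℝ}
    (h1 : ∫ t in TD, f t = 1 / 6) (h2 : ∫ t in TD, f t * Qf (M *ᵥ vt t) = c / 2) :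
    1 / (54 * c ^ 2) ≤ ∫ t in TD, f t / Qf (M *ᵥ vt t) ^ 2 := by
  have hnn : 0 ≤ ∫ t in TD, f t / Qf (M *ᵥ vt t) ^ 2 :=
    setIntegral_nonneg TD_meas fun t ht => div_nonneg (hf0 t ht) (sq_nonneg _)
  have hc0 : 0 ≤ c := by
    have : 0 ≤ ∫ t in TD, f t * Qf (M *ᵥ vt t) :=
      setIntegral_nonneg TD_meas fun t ht => mul_nonneg (hf0 t ht) (Qf_nonneg _)
    linarith
  rcases eq_or_lt_of_le hc0 with h | hc
  · rw [← h]
    simpa using hnn
  have hq : 0 < 3 * c := by linarith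
  have i1 : IntegrableOn f TD := hf.continuousOn.integrableOn_compact TD_compact
  have i2 : IntegrableOn (fun t => f t * Qf (M *ᵥ vt t)) TD :=
    (hf.mul ((Qf_cont.comp (mv_cont M)).comp vt_cont)).continuousOn.integrableOn_compact TD_compact
  have h3 : ∫ t in TD, f t * ((3 - 2 * Qf (M *ᵥ vt t) / (3 * c)) / (3 * c) ^ 2) ≤
      ∫ t in TD, f t / Qf (M *ᵥ vt t) ^ 2 := by
    apply setIntegral_mono_on _ (fQ_int hM hd hf) TD_meas
    · intro t ht
      have := weight_tan (Qf_mv_pos hM hd ht) hq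
      calc f t * ((3 - 2 * Qf (M *ᵥ vt t) / (3 * c)) / (3 * c) ^ 2)
          ≤ f t * (1 / Qf (M *ᵥ vt t) ^ 2) := mul_le_mul_of_nonneg_left this (hf0 t ht)
        _ = f t / Qf (M *ᵥ vt t) ^ 2 := by ring
    · have : (fun t => f t * ((3 - 2 * Qf (M *ᵥ vt t) / (3 * c)) / (3 * c) ^ 2)) =
          fun t => 3 / (3 * c) ^ 2 * f t - 2 / (3 * c) / (3 * c) ^ 2 * (f t * Qf (M *ᵥ vt t)) := by
        funext t
        ring
      rw [this]
      exact (i1.const_mul _).sub (i2.const_mul _)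
  have h4 : ∫ t in TD, f t * ((3 - 2 * Qf (M *ᵥ vt t) / (3 * c)) / (3 * c) ^ 2) =
      1 / (54 * c ^ 2) := by
    have : (fun t => f t * ((3 - 2 * Qf (M *ᵥ vt t) / (3 * c)) / (3 * c) ^ 2)) =
        fun t => 3 / (3 * c) ^ 2 * f t - 2 / (3 * c) / (3 * c) ^ 2 * (f t * Qf (M *ᵥ vt t)) := by
      funext t
      ring
    rw [this, integral_sub (i1.const_mul _) (i2.const_mul _), integral_const_mul,
      integral_const_mul, h1, h2]
    field_simp
    ring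
  rw [← h4]
  exact h3

/-- **the tent integral in the cone coordinates**, apex with sum one -/
theorem tentC_flat {M : Matrix (Fin 3) (Fin 3) ℝ} (hM : ∀ i j, 0 ≤ M i j) (hd : 0 < M.det)
    {A B C : ℝ} (hA : 0 < A) (hB : 0 < B) (hC : 0 < C) (hs : A + B + C = 1) :
    1 / (54 * cc M A B C ^ 2) ≤ ∫ t in TD, tent A B C t.1 t.2 / Qf (M *ᵥ vt t) ^ 2 := by
  apply fQ_ge hM hd (tent_cont A B C) (fun t ht => tent_nonneg hA hB hC ht)
  · have h := tent_qp hA hB hC hs 1 0 0 0 0 0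
    have e : (fun t : ℝ × ℝ => tent A B C t.1 t.2 * qp 1 0 0 0 0 0 t.1 t.2) =
        fun t => tent A B C t.1 t.2 := by
      funext t
      unfold qp
      ring
    rw [e] at h
    rw [h]
    unfold qv
    ring
  · simp only [Qf_mv]
    rw [tent_qp hA hB hC hs, qv_cc M hs]

/-- **the tent integral over the cone of the contact points**: apex `ζ` in contact coordinates -/
theorem tentC {M : Matrix (Fin 3) (Fin 3) ℝ} (hM : ∀ i j, 0 ≤ M i j) (hd : 0 < M.det)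
    {ζ : Fin 3 → ℝ} (hζ : ∀ k, 0 < ζ k) {Z : ℝ} (hZ : Z = ζ 0 + ζ 1 + ζ 2) :
    M.det / (54 * Z * cc M (ζ 0 / Z) (ζ 1 / Z) (ζ 2 / Z) ^ 2) ≤
      ∫ t in TC M, min (mu M (vt t) 0 / ζ 0) (min (mu M (vt t) 1 / ζ 1) (mu M (vt t) 2 / ζ 2)) /
        Qf (vt t) ^ 2 := by
  have hZ0 : 0 < Z := by rw [hZ]; linarith [hζ 0, hζ 1, hζ 2]
  have h := cone_change hM hd (f := fun v => min (v 0 / ζ 0) (min (v 1 / ζ 1) (v 2 / ζ 2)))
    (by fun_prop)
    (fun v hv => le_min (div_nonneg (hv 0) (hζ 0).le)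
      (le_min (div_nonneg (hv 1) (hζ 1).le) (div_nonneg (hv 2) (hζ 2).le)))
    (fun c hc v => by
      simp only [Pi.smul_apply, smul_eq_mul]
      rw [mul_div_assoc, mul_div_assoc, mul_div_assoc, mul_min_of_nonneg _ _ hc.le,
        mul_min_of_nonneg _ _ hc.le])
  rw [h]
  have h1 := tentC_flat hM hd (A := ζ 0 / Z) (B := ζ 1 / Z) (C := ζ 2 / Z)
    (div_pos (hζ 0) hZ0) (div_pos (hζ 1) hZ0) (div_pos (hζ 2) hZ0) (by
      rw [← add_div, ← add_div, ← hZ, div_self hZ0.ne'])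
  have e : (∫ t in TD, min (vt t 0 / ζ 0) (min (vt t 1 / ζ 1) (vt t 2 / ζ 2)) /
      Qf (M *ᵥ vt t) ^ 2) =
      (∫ t in TD, tent (ζ 0 / Z) (ζ 1 / Z) (ζ 2 / Z) t.1 t.2 / Qf (M *ᵥ vt t) ^ 2) / Z := by
    rw [← integral_div]
    congr 1
    funext t
    have : min (vt t 0 / ζ 0) (min (vt t 1 / ζ 1) (vt t 2 / ζ 2)) =
        tent (ζ 0) (ζ 1) (ζ 2) t.1 t.2 := by
      simp only [vt, tent, Matrix.cons_val_zero, Matrix.cons_val_one, Matrix.cons_val]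
    rw [this, tent_scale (hζ 0) (hζ 1) (hζ 2) hZ0, div_right_comm]
  rw [e]
  calc M.det / (54 * Z * cc M (ζ 0 / Z) (ζ 1 / Z) (ζ 2 / Z) ^ 2)
      = M.det * (1 / (54 * cc M (ζ 0 / Z) (ζ 1 / Z) (ζ 2 / Z) ^ 2) / Z) := by
        rw [div_div, show 54 * Z * cc M (ζ 0 / Z) (ζ 1 / Z) (ζ 2 / Z) ^ 2 =
          54 * cc M (ζ 0 / Z) (ζ 1 / Z) (ζ 2 / Z) ^ 2 * Z by ring]
        ring
    _ ≤ _ := by
        apply mul_le_mul_of_nonneg_left _ hd.le
        exact div_le_div_of_nonneg_right h1 hZ0.le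

end Helper75.MEI2
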