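import Pool.Agent.Helper75.MEI2.Cone3

/-!
# Project MEI, all bodies: the tent against a quadratic weight
-/

namespace Helper75.MEI2

open Set MeasureTheory Filter Topology
open scoped ENNReal
open Helper29.MEI (tent TD swap3 lint_poly)

/-- the indicator function of the levels -/
noncomputable def jg (A B C : ℝ) (g : ℝ → ℝ → ℝ) (x y t : ℝ) : ℝ≥0∞ :=
  if 0 < t ∧ t * A < x ∧ t * B < y ∧ t * C < 1 - x - y then ENNReal.ofReal (g x y) else 0

theorem jg_meas (A B C : ℝ) {g : ℝ → ℝ → ℝ} (hg : Continuous fun p : ℝ × ℝ => g p.1 p.2) :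
    Measurable fun p : ℝ × ℝ × ℝ => jg A B C g p.1 p.2.1 p.2.2 := by
  unfold jg
  apply Measurable.ite
  · have m1 : MeasurableSet {p : ℝ × ℝ × ℝ | 0 < p.2.2} :=
      (isOpen_lt continuous_const (by fun_prop)).measurableSet
    have m2 : MeasurableSet {p : ℝ × ℝ × ℝ | p.2.2 * A < p.1} :=
      (isOpen_lt (by fun_prop) (by fun_prop)).measurableSet
    have m3 : MeasurableSet {p : ℝ × ℝ × ℝ | p.2.2 * B < p.2.1} :=
      (isOpen_lt (by fun_prop) (by fun_prop)).measurableSet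
    have m4 : MeasurableSet {p : ℝ × ℝ × ℝ | p.2.2 * C < 1 - p.1 - p.2.1} :=
      (isOpen_lt (by fun_prop) (by fun_prop)).measurableSet
    exact m1.inter (m2.inter (m3.inter m4))
  · have h : Continuous fun p : ℝ × ℝ × ℝ => g p.1 p.2.1 :=
      hg.comp (by fun_prop : Continuous fun p : ℝ × ℝ × ℝ => (p.1, p.2.1))
    exact h.measurable.ennreal_ofReal
  · exact measurable_const

theorem jg_t {A B C : ℝ} (hA : 0 < A) (hB : 0 < B) (hC : 0 < C) (g : ℝ → ℝ → ℝ) (x y : ℝ) :
    ∫⁻ t, jg A B C g x y t =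
      ENNReal.ofReal (tent A B C x y) * ENNReal.ofReal (g x y) := by
  have h1 : ∀ t, jg A B C g x y t =
      (Ioo 0 (tent A B C x y)).indicator (fun _ => ENNReal.ofReal (g x y)) t := by
    intro t
    unfold jg tent
    by_cases h : 0 < t ∧ t * A < x ∧ t * B < y ∧ t * C < 1 - x - y
    · rw [if_pos h, indicator_of_mem]
      refine ⟨h.1, ?_⟩
      rw [lt_min_iff, lt_min_iff, lt_div_iff₀ hA, lt_div_iff₀ hB, lt_div_iff₀ hC]
      exact h.2
    · rw [if_neg h, indicator_of_notMem]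
      rintro ⟨h2, h3⟩
      rw [lt_min_iff, lt_min_iff, lt_div_iff₀ hA, lt_div_iff₀ hB, lt_div_iff₀ hC] at h3
      exact h ⟨h2, h3⟩
  simp only [h1]
  rw [lintegral_indicator measurableSet_Ioo, setLIntegral_const, Real.volume_Ioo, sub_zero,
    mul_comm]

/-- **the levels of the tent** -/
theorem tent_levels {A B C : ℝ} (hA : 0 < A) (hB : 0 < B) (hC : 0 < C) (hs : A + B + C = 1)
    {g : ℝ → ℝ → ℝ} (hg : Continuous fun p : ℝ × ℝ => g p.1 p.2) :
    ∫⁻ x, ∫⁻ y, ENNReal.ofReal (tent A B C x y) * ENNReal.ofReal (g x y) =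
      ∫⁻ t, ∫⁻ x, ∫⁻ y, (if 0 < t ∧ 0 < x ∧ 0 < y ∧ y < 1 - t - x then
        ENNReal.ofReal (g (x + t * A) (y + t * B)) else 0) := by
  have h1 : ∫⁻ x, ∫⁻ y, ENNReal.ofReal (tent A B C x y) * ENNReal.ofReal (g x y) =
      ∫⁻ x, ∫⁻ y, ∫⁻ t, jg A B C g x y t := by
    simp only [jg_t hA hB hC]
  rw [h1, swap3 (jg_meas A B C hg)]
  have h2 : ∀ t, ∫⁻ x, ∫⁻ y, jg A B C g x y t =
      ∫⁻ x, ∫⁻ y, jg A B C g (x + t * A) (y + t * B) t := by
    intro t
    rw [← lintegral_add_right_eq_self (μ := (volume : Measure ℝ))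
      (fun x => ∫⁻ y, jg A B C g x y t) (t * A)]
    apply lintegral_congr
    intro x
    exact (lintegral_add_right_eq_self (μ := (volume : Measure ℝ))
      (fun y => jg A B C g (x + t * A) y t) (t * B)).symm
  simp only [h2]
  apply lintegral_congr
  intro t
  apply lintegral_congr
  intro x
  apply lintegral_congr
  intro y
  unfold jg
  congr 1
  rw [eq_iff_iff]
  have h5 : t * A + t * B + t * C = t := by rw [← mul_add, ← mul_add, hs, mul_one]
  constructor
  · rintro ⟨k0, k1, k2, k3⟩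
    exact ⟨k0, by linarith, by linarith, by linarith⟩
  · rintro ⟨k0, k1, k2, k3⟩
    exact ⟨k0, by linarith, by linarith, by linarith⟩

/-- general quadratic polynomial -/
def qp (a b c d e f x y : ℝ) : ℝ := a + b * x + c * y + d * x ^ 2 + e * (x * y) + f * y ^ 2

theorem qp_cont (a b c d e f : ℝ) : Continuous fun p : ℝ × ℝ => qp a b c d e f p.1 p.2 := by
  unfold qp
  fun_prop

/-- inner integral of the quadratic polynomial -/
noncomputable def qi1 (a b c d e f m x u v : ℝ) : ℝ :=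
  (a + b * (x + u) + c * v + d * (x + u) ^ 2 + e * ((x + u) * v) + f * v ^ 2) * m +
    (c + e * (x + u) + 2 * f * v) * m ^ 2 / 2 + f * m ^ 3 / 3

theorem qp_int1 (a b c d e f m x u v : ℝ) :
    ∫ y in (0 : ℝ)..m, qp a b c d e f (x + u) (y + v) = qi1 a b c d e f m x u v := by
  have h : ∀ y, qp a b c d e f (x + u) (y + v) =
      (a + b * (x + u) + c * v + d * (x + u) ^ 2 + e * ((x + u) * v) + f * v ^ 2) +
        (c + e * (x + u) + 2 * f * v) * y + f * y ^ 2 := by
    intro y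
    unfold qp
    ring
  simp only [h]
  rw [Helper29.MEI.int_quad]
  unfold qi1
  ring

/-- general cubic and quartic integrals -/
theorem int_c3 (a0 a1 a2 a3 m : ℝ) :
    ∫ y in (0 : ℝ)..m, (a0 + a1 * y + a2 * y ^ 2 + a3 * y ^ 3) =
      a0 * m + a1 * m ^ 2 / 2 + a2 * m ^ 3 / 3 + a3 * m ^ 4 / 4 := by
  rw [intervalIntegral.integral_add, Helper29.MEI.int_quad, intervalIntegral.integral_const_mul,
    integral_pow]
  · norm_num
    ring
  · exact (by fun_prop : Continuous fun y : ℝ => a0 + a1 * y + a2 * y ^ 2).intervalIntegrable _ _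
  · exact (by fun_prop : Continuous fun y : ℝ => a3 * y ^ 3).intervalIntegrable _ _

theorem int_c4 (a0 a1 a2 a3 a4 m : ℝ) :
    ∫ y in (0 : ℝ)..m, (a0 + a1 * y + a2 * y ^ 2 + a3 * y ^ 3 + a4 * y ^ 4) =
      a0 * m + a1 * m ^ 2 / 2 + a2 * m ^ 3 / 3 + a3 * m ^ 4 / 4 + a4 * m ^ 5 / 5 := by
  rw [intervalIntegral.integral_add, int_c3, intervalIntegral.integral_const_mul,
    integral_pow]
  · norm_num
    ring
  · exact (by fun_prop : Continuous fun y : ℝ =>
      a0 + a1 * y + a2 * y ^ 2 + a3 * y ^ 3).intervalIntegrable _ _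
  · exact (by fun_prop : Continuous fun y : ℝ => a4 * y ^ 4).intervalIntegrable _ _

end Helper75.MEI2
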