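import Pool.Agent.Helper75.MEI2.TentP

/-!
# Project MEI, all bodies: the tent against a quadratic weight, the value
-/

namespace Helper75.MEI2

open Set MeasureTheory Filter Topology
open scoped ENNReal
open Helper29.MEI (tent TD swap3 lint_poly)

/-- second integral of the quadratic polynomial -/
noncomputable def qi2 (a b c d e f n u v : ℝ) : ℝ :=
  a * n ^ 2 / 2 + b * (n ^ 3 / 6 + u * n ^ 2 / 2) + c * (n ^ 3 / 6 + v * n ^ 2 / 2) +
    d * (n ^ 4 / 12 + u * n ^ 3 / 3 + u ^ 2 * n ^ 2 / 2) +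
    e * (n ^ 4 / 24 + (u + v) * n ^ 3 / 6 + u * v * n ^ 2 / 2) +
    f * (n ^ 4 / 12 + v * n ^ 3 / 3 + v ^ 2 * n ^ 2 / 2)

theorem qp_int2 (a b c d e f n u v : ℝ) :
    ∫ x in (0 : ℝ)..n, qi1 a b c d e f (n - x) x u v = qi2 a b c d e f n u v := by
  have h : ∀ x, qi1 a b c d e f (n - x) x u v =
      ((a + b * u + c * v + d * u ^ 2 + e * (u * v) + f * v ^ 2) * n +
        (c + e * u + 2 * f * v) * n ^ 2 / 2 + f * n ^ 3 / 3) +
      ((b + 2 * d * u + e * v) * n - (a + b * u + c * v + d * u ^ 2 + e * (u * v) + f * v ^ 2) +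
        (e * n ^ 2 - 2 * (c + e * u + 2 * f * v) * n) / 2 - f * n ^ 2) * x +
      (d * n - (b + 2 * d * u + e * v) + ((c + e * u + 2 * f * v) - 2 * e * n) / 2 + f * n)
        * x ^ 2 +
      (-d + e / 2 - f / 3) * x ^ 3 := by
    intro x
    unfold qi1
    ring
  simp only [h]
  rw [int_c3]
  unfold qi2
  ring

/-- the value of the third integral -/
noncomputable def qv (a b c d e f A B : ℝ) : ℝ :=
  a / 6 + b * (A + 1) / 24 + c * (B + 1) / 24 + d * (A ^ 2 + A + 1) / 60 +
    e * (2 * A * B + A + B + 1) / 120 + f * (B ^ 2 + B + 1) / 60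

theorem qp_int3 (a b c d e f A B : ℝ) :
    ∫ t in (0 : ℝ)..1, qi2 a b c d e f (1 - t) (t * A) (t * B) = qv a b c d e f A B := by
  have h1 : ∫ t in (0 : ℝ)..1, qi2 a b c d e f (1 - t) (t * A) (t * B) =
      ∫ t in (0 : ℝ)..1, qi2 a b c d e f t ((1 - t) * A) ((1 - t) * B) := by
    have := intervalIntegral.integral_comp_sub_left
      (fun t => qi2 a b c d e f t ((1 - t) * A) ((1 - t) * B)) (1 : ℝ) (a := 0) (b := 1)
    simp only [sub_sub_cancel, sub_self, sub_zero] at this
    exact this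
  have h : ∀ t, qi2 a b c d e f t ((1 - t) * A) ((1 - t) * B) =
      (a / 2 + b * A / 2 + c * B / 2 + d * A ^ 2 / 2 + e * (A * B) / 2 + f * B ^ 2 / 2) * t ^ 2 +
      (b * (1 / 6 - A / 2) + c * (1 / 6 - B / 2) + d * (A / 3 - A ^ 2) +
        e * ((A + B) / 6 - A * B) + f * (B / 3 - B ^ 2)) * t ^ 3 +
      (d * (1 / 12 - A / 3 + A ^ 2 / 2) + e * (1 / 24 - (A + B) / 6 + A * B / 2) +
        f * (1 / 12 - B / 3 + B ^ 2 / 2)) * t ^ 4 := by
    intro t
    unfold qi2
    ring
  rw [h1]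
  simp only [h]
  rw [Helper29.MEI.int_quart]
  unfold qv
  ring

/-- **tent against a nonnegative quadratic polynomial** -/
theorem tent_qp_lint {A B C : ℝ} (hA : 0 < A) (hB : 0 < B) (hC : 0 < C) (hs : A + B + C = 1)
    {a b c d e f : ℝ} (hp : ∀ x y, 0 ≤ x → 0 ≤ y → x + y ≤ 1 → 0 ≤ qp a b c d e f x y) :
    ∫⁻ x, ∫⁻ y, ENNReal.ofReal (tent A B C x y) * ENNReal.ofReal (qp a b c d e f x y) =
      ENNReal.ofReal (qv a b c d e f A B) := by
  rw [tent_levels hA hB hC hs (qp_cont a b c d e f), ← qp_int3]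
  have hin : ∀ t x y, 0 < t → 0 < x → 0 < y → y < 1 - t - x →
      0 ≤ qp a b c d e f (x + t * A) (y + t * B) := by
    intro t x y ht hx hy hxy
    have h5 : t * A + t * B + t * C = t := by rw [← mul_add, ← mul_add, hs, mul_one]
    have k1 : 0 < t * A := mul_pos ht hA
    have k2 : 0 < t * B := mul_pos ht hB
    have k3 : 0 < t * C := mul_pos ht hC
    exact hp _ _ (by linarith) (by linarith) (by linarith)
  have hc1 : ∀ x u v, Continuous fun y : ℝ => qp a b c d e f (x + u) (y + v) := by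
    intro x u v
    unfold qp
    fun_prop
  have g1 : ∀ t x, 0 < t → 0 < x → x < 1 - t → 0 ≤ qi1 a b c d e f (1 - t - x) x (t * A) (t * B) := by
    intro t x ht hx hx1
    rw [← qp_int1, intervalIntegral.integral_of_le (by linarith), integral_Ioc_eq_integral_Ioo]
    apply setIntegral_nonneg measurableSet_Ioo
    intro y hy
    exact hin t x y ht hx hy.1 hy.2
  have g2 : ∀ t, 0 < t → t < 1 → 0 ≤ qi2 a b c d e f (1 - t) (t * A) (t * B) := by
    intro t ht ht1
    rw [← qp_int2, intervalIntegral.integral_of_le (by linarith), integral_Ioc_eq_integral_Ioo]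
    apply setIntegral_nonneg measurableSet_Ioo
    intro x hx
    exact g1 t x ht hx.1 hx.2
  rw [lint_poly (p := fun t => qi2 a b c d e f (1 - t) (t * A) (t * B)) (by unfold qi2; fun_prop)
    zero_le_one g2]
  apply lintegral_congr
  intro t
  by_cases ht : 0 < t ∧ t < 1
  · rw [if_pos ht, ← qp_int2, lint_poly (p := fun x => qi1 a b c d e f (1 - t - x) x (t * A)
      (t * B)) (by unfold qi1; fun_prop) (by linarith) (fun x hx hx1 => g1 t x ht.1 hx hx1)]
    apply lintegral_congr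
    intro x
    by_cases hx : 0 < x ∧ x < 1 - t
    · rw [if_pos hx, ← qp_int1, lint_poly (p := fun y => qp a b c d e f (x + t * A) (y + t * B))
        (hc1 x _ _) (by linarith) (fun y hy hy1 => hin t x y ht.1 hx.1 hy hy1)]
      apply lintegral_congr
      intro y
      simp only [ht.1, hx.1, true_and]
    · rw [if_neg hx]
      rw [lintegral_eq_zero_of_ae_eq_zero]
      filter_upwards with y
      rw [if_neg]
      · rfl
      · rintro ⟨k1, k2, k3, k4⟩
        exact hx ⟨k2, by linarith⟩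
  · rw [if_neg ht]
    rw [lintegral_eq_zero_of_ae_eq_zero]
    filter_upwards with x
    rw [lintegral_eq_zero_of_ae_eq_zero]
    · rfl
    filter_upwards with y
    rw [if_neg]
    · rfl
    · rintro ⟨k1, k2, k3, k4⟩
      exact ht ⟨k1, by linarith⟩

end Helper75.MEI2
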