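import Pool.Agent.Helper75.MEI2.TentQ

/-!
# Project MEI, all bodies: the tent against a quadratic weight (real integrals) and
the tent integral in the cone of the contact points
-/

namespace Helper75.MEI2

open Set MeasureTheory Filter Topology Matrix
open scoped ENNReal
open Helper29.MEI (tent TD TD_meas TD_compact tent_cont tent_nonneg tent_scale)

theorem tq_int (A B C a b c d e f : ℝ) :
    IntegrableOn (fun t : ℝ × ℝ => tent A B C t.1 t.2 * qp a b c d e f t.1 t.2) TD :=
  ((tent_cont A B C).mul (qp_cont a b c d e f)).continuousOn.integrableOn_compact TD_compact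

theorem tent_neg_of {A B C : ℝ} (hA : 0 < A) (hB : 0 < B) (hC : 0 < C) {t : ℝ × ℝ} (ht : t ∉ TD) :
    tent A B C t.1 t.2 ≤ 0 := by
  by_contra hneg
  push Not at hneg
  unfold Helper29.MEI.tent at hneg
  rw [lt_min_iff, lt_min_iff] at hneg
  obtain ⟨k1, k2, k3⟩ := hneg
  have j1 : 0 < t.1 := by
    by_contra h
    push Not at h
    exact absurd k1 (not_lt.2 (div_nonpos_of_nonpos_of_nonneg h hA.le))
  have j2 : 0 < t.2 := by
    by_contra h
    push Not at h
    exact absurd k2 (not_lt.2 (div_nonpos_of_nonpos_of_nonneg h hB.le))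
  have j3 : 0 < 1 - t.1 - t.2 := by
    by_contra h
    push Not at h
    exact absurd k3 (not_lt.2 (div_nonpos_of_nonpos_of_nonneg h hC.le))
  exact ht ⟨j1.le, j2.le, by linarith⟩

theorem tent_qp_pos {A B C : ℝ} (hA : 0 < A) (hB : 0 < B) (hC : 0 < C) (hs : A + B + C = 1)
    {a b c d e f : ℝ} (hp : ∀ x y, 0 ≤ x → 0 ≤ y → x + y ≤ 1 → 0 ≤ qp a b c d e f x y) :
    ∫ t in TD, tent A B C t.1 t.2 * qp a b c d e f t.1 t.2 = qv a b c d e f A B := by
  have h := tent_qp_lint hA hB hC hs hp
  have hm : Measurable fun t : ℝ × ℝ =>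
      ENNReal.ofReal (tent A B C t.1 t.2) * ENNReal.ofReal (qp a b c d e f t.1 t.2) :=
    (tent_cont A B C).measurable.ennreal_ofReal.mul (qp_cont a b c d e f).measurable.ennreal_ofReal
  have h2 := lintegral_prod (μ := (volume : Measure ℝ)) (ν := (volume : Measure ℝ)) _
    hm.aemeasurable
  rw [← Measure.volume_eq_prod] at h2
  have h3 : ∫⁻ t : ℝ × ℝ, ENNReal.ofReal (tent A B C t.1 t.2) *
      ENNReal.ofReal (qp a b c d e f t.1 t.2) =
      ∫⁻ t in TD, ENNReal.ofReal (tent A B C t.1 t.2 * qp a b c d e f t.1 t.2) := by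
    rw [← lintegral_indicator TD_meas]
    apply lintegral_congr
    intro t
    by_cases ht : t ∈ TD
    · rw [indicator_of_mem ht, ENNReal.ofReal_mul (tent_nonneg hA hB hC ht)]
    · rw [indicator_of_notMem ht, ENNReal.ofReal_of_nonpos (tent_neg_of hA hB hC ht), zero_mul]
  have hnn : ∀ t ∈ TD, 0 ≤ tent A B C t.1 t.2 * qp a b c d e f t.1 t.2 := fun t ht =>
    mul_nonneg (tent_nonneg hA hB hC ht) (hp _ _ ht.1 ht.2.1 ht.2.2)
  have h4 : ENNReal.ofReal (∫ t in TD, tent A B C t.1 t.2 * qp a b c d e f t.1 t.2) =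
      ENNReal.ofReal (qv a b c d e f A B) := by
    rw [ofReal_integral_eq_lintegral_ofReal (tq_int A B C a b c d e f) (by
      filter_upwards [ae_restrict_mem TD_meas] with t ht using hnn t ht), ← h3, h2]
    exact h
  have hv : 0 ≤ qv a b c d e f A B := by
    have g1 : ∀ t x, 0 < t → 0 < x → x < 1 - t →
        0 ≤ qi1 a b c d e f (1 - t - x) x (t * A) (t * B) := by
      intro t x ht hx hx1
      rw [← qp_int1, intervalIntegral.integral_of_le (by linarith), integral_Ioc_eq_integral_Ioo]
      apply setIntegral_nonneg measurableSet_Ioo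
      intro y hy
      have h5 : t * A + t * B + t * C = t := by rw [← mul_add, ← mul_add, hs, mul_one]
      have k1 : 0 < t * A := mul_pos ht hA
      have k2 : 0 < t * B := mul_pos ht hB
      have k3 : 0 < t * C := mul_pos ht hC
      exact hp _ _ (by linarith) (by linarith [hy.1]) (by linarith [hy.2])
    have g2 : ∀ t, 0 < t → t < 1 → 0 ≤ qi2 a b c d e f (1 - t) (t * A) (t * B) := by
      intro t ht ht1
      rw [← qp_int2, intervalIntegral.integral_of_le (by linarith), integral_Ioc_eq_integral_Ioo]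
      apply setIntegral_nonneg measurableSet_Ioo
      intro x hx
      exact g1 t x ht hx.1 hx.2
    rw [← qp_int3, intervalIntegral.integral_of_le zero_le_one, integral_Ioc_eq_integral_Ioo]
    apply setIntegral_nonneg measurableSet_Ioo
    intro t ht
    exact g2 t ht.1 ht.2
  have hl : 0 ≤ ∫ t in TD, tent A B C t.1 t.2 * qp a b c d e f t.1 t.2 :=
    setIntegral_nonneg TD_meas hnn
  exact (ENNReal.ofReal_eq_ofReal_iff hl hv).1 h4

/-- **tent against any quadratic polynomial** -/
theorem tent_qp {A B C : ℝ} (hA : 0 < A) (hB : 0 < B) (hC : 0 < C) (hs : A + B + C = 1)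
    (a b c d e f : ℝ) :
    ∫ t in TD, tent A B C t.1 t.2 * qp a b c d e f t.1 t.2 = qv a b c d e f A B := by
  set K : ℝ := |a| + |b| + |c| + |d| + |e| + |f| with hK
  have hK0 : 0 ≤ K := by positivity
  have h1 := tent_qp_pos hA hB hC hs (a := a + K) (b := b) (c := c) (d := d) (e := e) (f := f)
    (fun x y hx hy hxy => by
      unfold qp
      have hx1 : x ≤ 1 := by linarith
      have hy1 : y ≤ 1 := by linarith
      have e1 : -|b| ≤ b * x := by
        have : |b * x| ≤ |b| := by
          rw [abs_mul, abs_of_nonneg hx]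
          exact mul_le_of_le_one_right (abs_nonneg b) hx1
        linarith [neg_abs_le (b * x)]
      have e2 : -|c| ≤ c * y := by
        have : |c * y| ≤ |c| := by
          rw [abs_mul, abs_of_nonneg hy]
          exact mul_le_of_le_one_right (abs_nonneg c) hy1
        linarith [neg_abs_le (c * y)]
      have e3 : -|d| ≤ d * x ^ 2 := by
        have : |d * x ^ 2| ≤ |d| := by
          rw [abs_mul, abs_of_nonneg (sq_nonneg x)]
          exact mul_le_of_le_one_right (abs_nonneg d) (by nlinarith)
        linarith [neg_abs_le (d * x ^ 2)]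
      have e4 : -|e| ≤ e * (x * y) := by
        have hxy0 : 0 ≤ x * y := mul_nonneg hx hy
        have : |e * (x * y)| ≤ |e| := by
          rw [abs_mul, abs_of_nonneg hxy0]
          exact mul_le_of_le_one_right (abs_nonneg e) (by nlinarith)
        linarith [neg_abs_le (e * (x * y))]
      have e5 : -|f| ≤ f * y ^ 2 := by
        have : |f * y ^ 2| ≤ |f| := by
          rw [abs_mul, abs_of_nonneg (sq_nonneg y)]
          exact mul_le_of_le_one_right (abs_nonneg f) (by nlinarith)
        linarith [neg_abs_le (f * y ^ 2)]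
      have e0 := neg_abs_le a
      rw [hK]
      linarith)
  have h2 := tent_qp_pos hA hB hC hs (a := K) (b := 0) (c := 0) (d := 0) (e := 0) (f := 0)
    (fun x y _ _ _ => by
      unfold qp
      simpa using hK0)
  have h3 : ∫ t in TD, tent A B C t.1 t.2 * qp a b c d e f t.1 t.2 =
      (∫ t in TD, tent A B C t.1 t.2 * qp (a + K) b c d e f t.1 t.2) -
        ∫ t in TD, tent A B C t.1 t.2 * qp K 0 0 0 0 0 t.1 t.2 := by
    rw [← integral_sub (tq_int _ _ _ _ _ _ _ _ _) (tq_int _ _ _ _ _ _ _ _ _)]
    congr 1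
    funext t
    unfold qp
    ring
  rw [h3, h1, h2]
  unfold qv
  ring

end Helper75.MEI2
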