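import Pool.Agent.Helper75.MEI2.TentL

/-!
# Project MEI, all bodies: the chambers of the hull of the contact points and the apex
-/

namespace Helper75.MEI2

open Set MeasureTheory Filter Topology Matrix
open Helper29.MEI (TD TD_meas TD_compact)

theorem null_line {p q : ℝ} (r : ℝ) (h : p ≠ 0 ∨ q ≠ 0) :
    volume {t : ℝ × ℝ | p * t.1 + q * t.2 = r} = 0 := by
  let A : AffineSubspace ℝ (ℝ × ℝ) :=
    { carrier := {t : ℝ × ℝ | p * t.1 + q * t.2 = r}
      smul_vsub_vadd_mem' := by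
        intro c x y z hx hy hz
        have h1 : p * x.1 + q * x.2 = r := hx
        have h2 : p * y.1 + q * y.2 = r := hy
        have h3 : p * z.1 + q * z.2 = r := hz
        show p * (c • (x - y) + z).1 + q * (c • (x - y) + z).2 = r
        simp only [Prod.fst_add, Prod.snd_add, Prod.smul_fst, Prod.smul_snd, Prod.fst_sub,
          Prod.snd_sub, smul_eq_mul]
        linear_combination c * h1 - c * h2 + h3 }
  have hA : A ≠ ⊤ := by
    intro h'
    have m0 : ((0, 0) : ℝ × ℝ) ∈ A := by rw [h']; trivial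
    have m1 : ((1, 0) : ℝ × ℝ) ∈ A := by rw [h']; trivial
    have m2 : ((0, 1) : ℝ × ℝ) ∈ A := by rw [h']; trivial
    have e0 : p * 0 + q * 0 = r := m0
    have e1 : p * 1 + q * 0 = r := m1
    have e2 : p * 0 + q * 1 = r := m2
    rcases h with h | h
    · apply h; linarith
    · apply h; linarith
  exact Measure.addHaar_affineSubspace volume A hA

theorem null_lin {c : Fin 3 → ℝ} (hc : c ≠ 0) :
    volume {t : ℝ × ℝ | c 0 * vt t 0 + c 1 * vt t 1 + c 2 * vt t 2 = 0} = 0 := by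
  by_cases h : c 0 - c 2 ≠ 0 ∨ c 1 - c 2 ≠ 0
  · have h1 := null_line (-(c 2)) h
    convert h1 using 2
    ext t
    simp only [vt, Matrix.cons_val_zero, Matrix.cons_val_one, Matrix.cons_val]
    constructor
    · intro h2
      have h2' : c 0 * t.1 + c 1 * t.2 + c 2 * (1 - t.1 - t.2) = 0 := h2
      show (c 0 - c 2) * t.1 + (c 1 - c 2) * t.2 = -(c 2)
      linarith
    · intro h2
      have h2' : (c 0 - c 2) * t.1 + (c 1 - c 2) * t.2 = -(c 2) := h2
      show c 0 * t.1 + c 1 * t.2 + c 2 * (1 - t.1 - t.2) = 0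
      linarith
  · push Not at h
    have h0 : c 0 = c 2 := by linarith [h.1]
    have h1 : c 1 = c 2 := by linarith [h.2]
    have h2 : c 2 ≠ 0 := by
      intro h2
      apply hc
      funext k
      fin_cases k
      · simpa [h2] using h0
      · simpa [h2] using h1
      · simpa using h2
    have : {t : ℝ × ℝ | c 0 * vt t 0 + c 1 * vt t 1 + c 2 * vt t 2 = 0} = ∅ := by
      ext t
      simp only [vt, Matrix.cons_val_zero, Matrix.cons_val_one, Matrix.cons_val, h0, h1]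
      constructor
      · intro h3
        have h3' : c 2 * t.1 + c 2 * t.2 + c 2 * (1 - t.1 - t.2) = 0 := h3
        exact h2 (by linarith)
      · intro h3
        exact absurd h3 (notMem_empty t)
    rw [this]
    exact measure_empty

/-- the chamber of the apex `z` that leaves out the contact point `l` -/
def ch (P : Matrix (Fin 3) (Fin 3) ℝ) (z : Fin 3 → ℝ) (l : Fin 3) : Matrix (Fin 3) (Fin 3) ℝ :=
  P.updateCol l z

theorem ch_nonneg {P : Matrix (Fin 3) (Fin 3) ℝ} (hP : ∀ i j, 0 ≤ P i j) {z : Fin 3 → ℝ}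
    (hz : ∀ k, 0 ≤ z k) (l : Fin 3) : ∀ i j, 0 ≤ ch P z l i j := by
  intro i j
  unfold ch
  rw [Matrix.updateCol_apply]
  split_ifs
  · exact hz i
  · exact hP i j

theorem ch_det {P : Matrix (Fin 3) (Fin 3) ℝ} (hd : 0 < P.det) (z : Fin 3 → ℝ) (l : Fin 3) :
    (ch P z l).det = mu P z l * P.det := by
  have h1 : (ch P z l).det = P.cramer z l := by
    rw [Matrix.cramer_apply]
    rfl
  rw [h1, Matrix.cramer_eq_adjugate_mulVec]
  have h2 : P.adjugate *ᵥ z = P.det • mu P z := by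
    have h3 : P *ᵥ mu P z = z := mul_mu hd z
    conv_lhs => rw [← h3]
    rw [Matrix.mulVec_mulVec, Matrix.adjugate_mul, Matrix.smul_mulVec, Matrix.one_mulVec]
  rw [h2, Pi.smul_apply, smul_eq_mul, mul_comm]

theorem ch_det_pos {P : Matrix (Fin 3) (Fin 3) ℝ} (hd : 0 < P.det) {z : Fin 3 → ℝ} {l : Fin 3}
    (hu : 0 < mu P z l) : 0 < (ch P z l).det := by
  rw [ch_det hd]
  exact mul_pos hu hd

/-- coordinates in a chamber -/
theorem mu_ch {P : Matrix (Fin 3) (Fin 3) ℝ} (hd : 0 < P.det) {z : Fin 3 → ℝ} {l : Fin 3}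
    (hu : 0 < mu P z l) (b : Fin 3 → ℝ) :
    mu (ch P z l) b = fun k => if k = l then mu P b l / mu P z l else
      mu P b k - mu P b l / mu P z l * mu P z k := by
  have hz : P *ᵥ mu P z = z := mul_mu hd z
  have hb : P *ᵥ mu P b = b := mul_mu hd b
  set u := mu P z with hudef
  set x := mu P b with hxdef
  set w : Fin 3 → ℝ := fun k => if k = l then x l / u l else x k - x l / u l * u k with hw
  have h1 : ch P z l *ᵥ w = b := by
    rw [← hb]
    ext i
    have hzi : z i = P i 0 * u 0 + P i 1 * u 1 + P i 2 * u 2 := by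
      rw [← hz]
      simp only [Matrix.mulVec, dotProduct, Fin.sum_univ_three]
    simp only [ch, Matrix.mulVec, dotProduct, Fin.sum_univ_three, Matrix.updateCol_apply, hw]
    have hu' : u l ≠ 0 := hu.ne'
    fin_cases l
    · simp only [Fin.zero_eta, Fin.isValue, ↓reduceIte, one_ne_zero, Fin.reduceEq, hzi] at hu' ⊢
      field_simp
      ring
    · simp only [Fin.mk_one, Fin.isValue, ↓reduceIte, zero_ne_one, Fin.reduceEq, hzi] at hu' ⊢
      field_simp
      ring
    · simp only [Fin.reduceFinMk, Fin.isValue, ↓reduceIte, Fin.reduceEq, hzi] at hu' ⊢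
      field_simp
      ring
  rw [← h1]
  exact mu_mul (ch_det_pos hd hu) w

/-- two chambers meet in a null set -/
theorem ch_null {P : Matrix (Fin 3) (Fin 3) ℝ} (hd : 0 < P.det) {z : Fin 3 → ℝ} {l m : Fin 3}
    (hlm : l ≠ m) (hl : 0 < mu P z l) (hm : 0 < mu P z m) :
    volume (TC (ch P z l) ∩ TC (ch P z m)) = 0 := by
  have hsub : TC (ch P z l) ∩ TC (ch P z m) ⊆ {t : ℝ × ℝ |
      (mu P z m * P⁻¹ l 0 - mu P z l * P⁻¹ m 0) * vt t 0 +
      (mu P z m * P⁻¹ l 1 - mu P z l * P⁻¹ m 1) * vt t 1 +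
      (mu P z m * P⁻¹ l 2 - mu P z l * P⁻¹ m 2) * vt t 2 = 0} := by
    rintro t ⟨h1, h2⟩
    have e1 := h1.2 m
    have e2 := h2.2 l
    rw [mu_ch hd hl] at e1
    rw [mu_ch hd hm] at e2
    simp only [hlm, hlm.symm, if_false] at e1 e2
    have x1 : mu P (vt t) l = P⁻¹ l 0 * vt t 0 + P⁻¹ l 1 * vt t 1 + P⁻¹ l 2 * vt t 2 := by
      simp only [mu, Matrix.mulVec, dotProduct, Fin.sum_univ_three]
    have x2 : mu P (vt t) m = P⁻¹ m 0 * vt t 0 + P⁻¹ m 1 * vt t 1 + P⁻¹ m 2 * vt t 2 := by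
      simp only [mu, Matrix.mulVec, dotProduct, Fin.sum_univ_three]
    have k1 : mu P (vt t) l * mu P z m ≤ mu P (vt t) m * mu P z l := by
      have h3 := mul_le_mul_of_nonneg_right (sub_nonneg.1 e1) hl.le
      calc mu P (vt t) l * mu P z m = mu P (vt t) l / mu P z l * mu P z m * mu P z l := by
            field_simp
        _ ≤ _ := h3
    have k2 : mu P (vt t) m * mu P z l ≤ mu P (vt t) l * mu P z m := by
      have h3 := mul_le_mul_of_nonneg_right (sub_nonneg.1 e2) hm.le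
      calc mu P (vt t) m * mu P z l = mu P (vt t) m / mu P z m * mu P z l * mu P z m := by
            field_simp
        _ ≤ _ := h3
    show (mu P z m * P⁻¹ l 0 - mu P z l * P⁻¹ m 0) * vt t 0 +
      (mu P z m * P⁻¹ l 1 - mu P z l * P⁻¹ m 1) * vt t 1 +
      (mu P z m * P⁻¹ l 2 - mu P z l * P⁻¹ m 2) * vt t 2 = 0
    have k3 := le_antisymm k1 k2
    rw [x1, x2] at k3
    linear_combination k3
  refine measure_mono_null hsub ?_
  have hc : (fun k : Fin 3 => mu P z m * P⁻¹ l k - mu P z l * P⁻¹ m k) ≠ 0 := by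
    intro h0
    have hinv : P⁻¹ * P = 1 := Matrix.nonsing_inv_mul P (isUnit_iff_ne_zero.2 hd.ne')
    have h1 : (P⁻¹ * P) l l = 1 := by rw [hinv]; simp
    have h2 : (P⁻¹ * P) m l = 0 := by rw [hinv]; simp [hlm.symm]
    simp only [Matrix.mul_apply, Fin.sum_univ_three] at h1 h2
    have c0 := congrFun h0 0
    have c1 := congrFun h0 1
    have c2 := congrFun h0 2
    simp only [Pi.zero_apply] at c0 c1 c2
    have : mu P z m = 0 := by
      linear_combination (-mu P z m) * h1 + mu P z l * h2 + P 0 l * c0 + P 1 l * c1 + P 2 l * c2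
    exact hm.ne' this
  exact null_lin (c := fun k : Fin 3 => mu P z m * P⁻¹ l k - mu P z l * P⁻¹ m k) hc

/-- the chamber, empty if the apex is beyond the wall of `l` -/
def Ach (P : Matrix (Fin 3) (Fin 3) ℝ) (z : Fin 3 → ℝ) (l : Fin 3) : Set (ℝ × ℝ) :=
  {t | 0 < mu P z l ∧ t ∈ TC (ch P z l)}

theorem Ach_pos {P : Matrix (Fin 3) (Fin 3) ℝ} {z : Fin 3 → ℝ} {l : Fin 3}
    (h : 0 < mu P z l) : Ach P z l = TC (ch P z l) := by
  ext t
  exact ⟨fun h1 => h1.2, fun h1 => ⟨h, h1⟩⟩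

theorem Ach_neg {P : Matrix (Fin 3) (Fin 3) ℝ} {z : Fin 3 → ℝ} {l : Fin 3}
    (h : ¬ 0 < mu P z l) : Ach P z l = ∅ := by
  ext t
  exact ⟨fun h1 => absurd h1.1 h, fun h1 => absurd h1 (notMem_empty t)⟩

theorem Ach_meas (P : Matrix (Fin 3) (Fin 3) ℝ) (z : Fin 3 → ℝ) (l : Fin 3) :
    MeasurableSet (Ach P z l) := by
  by_cases h : 0 < mu P z l
  · rw [Ach_pos h]
    exact TC_meas _
  · rw [Ach_neg h]
    exact MeasurableSet.empty

theorem Ach_sub (P : Matrix (Fin 3) (Fin 3) ℝ) (z : Fin 3 → ℝ) (l : Fin 3) :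
    Ach P z l ⊆ TD := fun _ ht => TC_sub _ ht.2

theorem Ach_null {P : Matrix (Fin 3) (Fin 3) ℝ} (hd : 0 < P.det) {z : Fin 3 → ℝ} {l m : Fin 3}
    (hlm : l ≠ m) : volume (Ach P z l ∩ Ach P z m) = 0 := by
  by_cases hl : 0 < mu P z l
  · by_cases hm : 0 < mu P z m
    · rw [Ach_pos hl, Ach_pos hm]
      exact ch_null hd hlm hl hm
    · rw [Ach_neg hm, inter_empty]
      exact measure_empty
  · rw [Ach_neg hl, empty_inter]
    exact measure_empty

open Classical in
theorem ite1 {D B : Set (ℝ × ℝ)} (hB : MeasurableSet B) {f k : ℝ × ℝ → ℝ}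
    (hf : IntegrableOn f D) (hk : IntegrableOn k D) :
    IntegrableOn (fun t => if t ∈ B then f t else k t) D ∧
    ∫ t in D, (if t ∈ B then f t else k t) = (∫ t in B ∩ D, f t) + ∫ t in Bᶜ ∩ D, k t := by
  have e : (fun t => if t ∈ B then f t else k t) = B.piecewise f k := rfl
  have h1 : IntegrableOn f B (volume.restrict D) := Integrable.integrableOn hf
  have h2 : IntegrableOn k Bᶜ (volume.restrict D) := Integrable.integrableOn hk
  constructor
  · rw [e]
    exact Integrable.piecewise hB h1 h2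
  · have h3 := integral_piecewise hB h1 h2
    rw [Measure.restrict_restrict hB, Measure.restrict_restrict hB.compl] at h3
    rw [e]
    exact h3

open Classical in
/-- integral of a function defined by cases on three essentially disjoint sets -/
theorem ite3 {D A B C : Set (ℝ × ℝ)} (hA : MeasurableSet A)
    (hB : MeasurableSet B) (hC : MeasurableSet C) (sA : A ⊆ D) (sB : B ⊆ D) (sC : C ⊆ D)
    (nAB : volume (A ∩ B) = 0) (nAC : volume (A ∩ C) = 0) (nBC : volume (B ∩ C) = 0)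
    {f g h k : ℝ × ℝ → ℝ} (hf : IntegrableOn f D) (hg : IntegrableOn g D) (hh : IntegrableOn h D)
    (hk : IntegrableOn k D) :
    IntegrableOn (fun t => if t ∈ A then f t else if t ∈ B then g t else if t ∈ C then h t
      else k t) D ∧
    ∫ t in D, (if t ∈ A then f t else if t ∈ B then g t else if t ∈ C then h t else k t) =
      (∫ t in A, f t) + (∫ t in B, g t) + (∫ t in C, h t) + ∫ t in D \ (A ∪ B ∪ C), k t := by
  obtain ⟨i1, e1⟩ := ite1 hC hh hk
  obtain ⟨i2, e2⟩ := ite1 hB hg i1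
  obtain ⟨i3, e3⟩ := ite1 hA hf i2
  refine ⟨i3, ?_⟩
  rw [e3]
  have i4 : IntegrableOn (fun t => if t ∈ B then g t else if t ∈ C then h t else k t) (Aᶜ ∩ D) :=
    i2.mono_set inter_subset_right
  have hg4 : IntegrableOn g (Aᶜ ∩ D) := hg.mono_set inter_subset_right
  have hi1 : IntegrableOn (fun t => if t ∈ C then h t else k t) (Aᶜ ∩ D) :=
    i1.mono_set inter_subset_right
  obtain ⟨-, e5⟩ := ite1 hB hg4 hi1
  rw [e5]
  have hh6 : IntegrableOn h (Bᶜ ∩ (Aᶜ ∩ D)) :=
    hh.mono_set (inter_subset_right.trans inter_subset_right)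
  have hk6 : IntegrableOn k (Bᶜ ∩ (Aᶜ ∩ D)) :=
    hk.mono_set (inter_subset_right.trans inter_subset_right)
  obtain ⟨-, e6⟩ := ite1 hC hh6 hk6
  rw [e6]
  have q1 : A ∩ D = A := inter_eq_left.2 sA
  have q2 : (B ∩ (Aᶜ ∩ D) : Set (ℝ × ℝ)) =ᵐ[volume] B := by
    have : B ∩ (Aᶜ ∩ D) = B \ (A ∩ B) := by
      ext t
      constructor
      · rintro ⟨h1, h2, h3⟩
        exact ⟨h1, fun h4 => h2 h4.1⟩
      · rintro ⟨h1, h2⟩
        exact ⟨h1, fun h3 => h2 ⟨h3, h1⟩, sB h1⟩
    rw [this]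
    exact sdiff_null_ae_eq_self nAB
  have q3 : (C ∩ (Bᶜ ∩ (Aᶜ ∩ D)) : Set (ℝ × ℝ)) =ᵐ[volume] C := by
    have : C ∩ (Bᶜ ∩ (Aᶜ ∩ D)) = C \ ((A ∩ C) ∪ (B ∩ C)) := by
      ext t
      constructor
      · rintro ⟨h1, h2, h3, h4⟩
        refine ⟨h1, ?_⟩
        rintro (h5 | h5)
        · exact h3 h5.1
        · exact h2 h5.1
      · rintro ⟨h1, h2⟩
        exact ⟨h1, fun h3 => h2 (Or.inr ⟨h3, h1⟩), fun h3 => h2 (Or.inl ⟨h3, h1⟩), sC h1⟩
    rw [this]
    exact sdiff_null_ae_eq_self (measure_union_null nAC nBC)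
  have q4 : Cᶜ ∩ (Bᶜ ∩ (Aᶜ ∩ D)) = D \ (A ∪ B ∪ C) := by
    ext t
    simp only [mem_inter_iff, mem_compl_iff, Set.mem_sdiff, mem_union]
    tauto
  rw [q1, setIntegral_congr_set q2, setIntegral_congr_set q3, q4]
  ring

open Classical in
/-- **the piecewise certificate on the chambers of the apex** -/
theorem chambers {P : Matrix (Fin 3) (Fin 3) ℝ} (hd : 0 < P.det) (z : Fin 3 → ℝ)
    {f g h k : ℝ × ℝ → ℝ} (hf : IntegrableOn f TD) (hg : IntegrableOn g TD)
    (hh : IntegrableOn h TD) (hk : IntegrableOn k TD) :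
    IntegrableOn (fun t => if t ∈ Ach P z 0 then f t else if t ∈ Ach P z 1 then g t else
      if t ∈ Ach P z 2 then h t else k t) TD ∧
    ∫ t in TD, (if t ∈ Ach P z 0 then f t else if t ∈ Ach P z 1 then g t else
      if t ∈ Ach P z 2 then h t else k t) =
      (∫ t in Ach P z 0, f t) + (∫ t in Ach P z 1, g t) + (∫ t in Ach P z 2, h t) +
        ∫ t in TD \ (Ach P z 0 ∪ Ach P z 1 ∪ Ach P z 2), k t :=
  ite3 (Ach_meas P z 0) (Ach_meas P z 1) (Ach_meas P z 2) (Ach_sub P z 0) (Ach_sub P z 1)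
    (Ach_sub P z 2) (Ach_null hd (by decide)) (Ach_null hd (by decide)) (Ach_null hd (by decide))
    hf hg hh hk

/-- value of the linear interpolation with node values `L` on a cone -/
noncomputable def lv (M : Matrix (Fin 3) (Fin 3) ℝ) (L : Fin 3 → ℝ) (t : ℝ × ℝ) : ℝ :=
  (L 0 * mu M (vt t) 0 + L 1 * mu M (vt t) 1 + L 2 * mu M (vt t) 2) / Qf (vt t) ^ 2

/-- closed lower bound of its integral -/
noncomputable def Lb (M : Matrix (Fin 3) (Fin 3) ℝ) (L : Fin 3 → ℝ) : ℝ :=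
  M.det / 54 * (L 0 / cc M 1 0 0 ^ 2 + L 1 / cc M 0 1 0 ^ 2 + L 2 / cc M 0 0 1 ^ 2)

theorem lv_int (M : Matrix (Fin 3) (Fin 3) ℝ) (L : Fin 3 → ℝ) : IntegrableOn (lv M L) TD := by
  apply Continuous.continuousOn _ |>.integrableOn_compact TD_compact
  unfold lv
  apply Continuous.div₀ _ ((Qf_cont.comp vt_cont).pow 2)
  · intro t
    exact (pow_pos (Qf_vt_pos t) 2).ne'
  · have h : ∀ k, Continuous fun t => mu M (vt t) k := fun k =>
      (continuous_apply k).comp ((mu_cont M).comp vt_cont)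
    exact ((continuous_const.mul (h 0)).add (continuous_const.mul (h 1))).add
      (continuous_const.mul (h 2))

theorem lv_ge {M : Matrix (Fin 3) (Fin 3) ℝ} (hM : ∀ i j, 0 ≤ M i j) (hd : 0 < M.det)
    {L : Fin 3 → ℝ} (hL : ∀ k, 0 ≤ L k) : Lb M L ≤ ∫ t in TC M, lv M L t := by
  obtain ⟨h0, h1, h2⟩ := cornerC hM hd
  have i : ∀ k : Fin 3, IntegrableOn (fun t => mu M (vt t) k / Qf (vt t) ^ 2) (TC M) := fun k =>
    fmu_int (continuous_apply k)
  have e : ∫ t in TC M, lv M L t = L 0 * (∫ t in TC M, mu M (vt t) 0 / Qf (vt t) ^ 2) +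
      L 1 * (∫ t in TC M, mu M (vt t) 1 / Qf (vt t) ^ 2) +
      L 2 * (∫ t in TC M, mu M (vt t) 2 / Qf (vt t) ^ 2) := by
    have e1 : lv M L = fun t => L 0 * (mu M (vt t) 0 / Qf (vt t) ^ 2) +
        L 1 * (mu M (vt t) 1 / Qf (vt t) ^ 2) + L 2 * (mu M (vt t) 2 / Qf (vt t) ^ 2) := by
      funext t
      unfold lv
      ring
    have j0 := (i 0).const_mul (L 0)
    have j1 := (i 1).const_mul (L 1)
    have j2 := (i 2).const_mul (L 2)
    have e2 := integral_add (j0.add j1) j2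
    have e3 := integral_add j0 j1
    simp only [Pi.add_apply] at e2
    rw [e1, e2, e3, integral_const_mul, integral_const_mul, integral_const_mul]
  rw [e]
  calc Lb M L = L 0 * (M.det / (54 * cc M 1 0 0 ^ 2)) + L 1 * (M.det / (54 * cc M 0 1 0 ^ 2)) +
        L 2 * (M.det / (54 * cc M 0 0 1 ^ 2)) := by
        unfold Lb
        ring
    _ ≤ _ := add_le_add (add_le_add (mul_le_mul_of_nonneg_left h0 (hL 0))
        (mul_le_mul_of_nonneg_left h1 (hL 1))) (mul_le_mul_of_nonneg_left h2 (hL 2))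

/-- **chamber of the apex**: value `s` at the apex, `R k` at the contact points -/
theorem Ach_ge {P : Matrix (Fin 3) (Fin 3) ℝ} (hP : ∀ i j, 0 ≤ P i j) (hd : 0 < P.det)
    {z : Fin 3 → ℝ} (hz : ∀ k, 0 ≤ z k) {s : ℝ} (hs : 0 ≤ s) {R : Fin 3 → ℝ}
    (hR : ∀ k, 0 ≤ R k) (l : Fin 3) (hu : 0 < mu P z l) :
    Lb (ch P z l) (fun k => if k = l then s else R k) ≤
      ∫ t in Ach P z l, lv (ch P z l) (fun k => if k = l then s else R k) t := by
  rw [Ach_pos hu]
  apply lv_ge (ch_nonneg hP hz l) (ch_det_pos hd hu)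
  intro k
  split_ifs
  · exact hs
  · exact hR k

end Helper75.MEI2
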